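import Mathlib

/-!
# The wired boundary cluster of bond percolation (MP_65faa7_pr): definitions
-/

set_option autoImplicit false

open MeasureTheory

namespace Pool.Agent.Helper56.WP

/-- points of `ℤ^d` -/
abbrev V (d : ℕ) : Type := Fin d → ℤ

/-- nearest neighbours -/
def nn {d : ℕ} (x y : V d) : Prop := ∑ i, |x i - y i| = 1

/-- A configuration: a state (open = `true`, closed = `false`) for every unordered pair of points;
only the states of nearest-neighbour pairs (the edges of `ℤ^d`) are ever used. -/
abbrev Cfg (d : ℕ) : Type := Sym2 (V d) → Bool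

/-- Bernoulli bond percolation with parameter `p`: the states are independent and open with
probability `p`. -/
noncomputable def perc (d : ℕ) (p : unitInterval) : Measure (Cfg d) :=
  Measure.infinitePi fun _ => ProbabilityTheory.bernoulliMeasure true false p

/-- the graph of the open edges with both endpoints in `B` -/
def openG {d : ℕ} (B : Set (V d)) (ω : Cfg d) : SimpleGraph (V d) where
  Adj x y := x ≠ y ∧ nn x y ∧ x ∈ B ∧ y ∈ B ∧ ω s(x, y) = true
  symm := ⟨by
    intro x y h
    refine ⟨h.1.symm, ?_, h.2.2.2.1, h.2.2.1, ?_⟩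
    · have := h.2.1
      unfold nn at this ⊢
      rw [← this]
      exact Finset.sum_congr rfl fun i _ => abs_sub_comm _ _
    · rw [Sym2.eq_swap]; exact h.2.2.2.2⟩
  loopless := ⟨fun x h => h.1 rfl⟩

/-- the box `[0, n-1]^d` -/
noncomputable def Bx (d n : ℕ) : Finset (V d) := Fintype.piFinset fun _ => Finset.Ico (0 : ℤ) n

/-- its inner boundary: the points with some coordinate equal to `0` or `n - 1` -/
noncomputable def bd (d n : ℕ) : Finset (V d) := (Bx d n).filter fun x => ∃ i, x i = 0 ∨ x i = n - 1

/-- the wired graph: open edges inside the box, all boundary points identified with each other -/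
def wiredG {d : ℕ} (n : ℕ) (ω : Cfg d) : SimpleGraph (V d) where
  Adj x y := (openG (Bx d n : Set (V d)) ω).Adj x y ∨ (x ≠ y ∧ x ∈ bd d n ∧ y ∈ bd d n)
  symm := ⟨by
    rintro x y (h | h)
    · exact Or.inl h.symm
    · exact Or.inr ⟨h.1.symm, h.2.2, h.2.1⟩⟩
  loopless := ⟨fun x h => by
    rcases h with h | h
    · exact h.1 rfl
    · exact h.1 rfl⟩

open Classical in
/-- number of points of the wired cluster of `x` in the box -/
noncomputable def wiredCard {d : ℕ} (n : ℕ) (ω : Cfg d) (x : V d) : ℕ :=
  ((Bx d n).filter fun y => (wiredG n ω).Reachable x y).card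

/-- size of the largest wired cluster -/
noncomputable def wiredMax {d : ℕ} (n : ℕ) (ω : Cfg d) : ℕ := (Bx d n).sup (wiredCard n ω)

/-- the origin is connected to the hyperplane `{y | y 0 = r}` -/
def arm (d : ℕ) [NeZero d] (r : ℕ) : Set (Cfg d) :=
  {ω | ∃ y : V d, y 0 = r ∧ (openG Set.univ ω).Reachable 0 y}

/-- the constant `a_w = 2 d ∑_r P(0 ↔ {y | y 0 = r})` -/
noncomputable def aw (d : ℕ) [NeZero d] (p : unitInterval) : ENNReal :=
  2 * d * ∑' r : ℕ, perc d p (arm d r)

end Pool.Agent.Helper56.WP
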