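import Pool.Agent.Helper56.WP.Statements

/-! # MP_65faa7_pr, assembly -/

set_option autoImplicit false

open MeasureTheory Filter Topology

namespace Pool.Agent.Helper56.WP

open Classical in
/-- P(some free cluster is of size ≥ ε n^(d-1)) → 0 if aw finite -/
def StFree : Prop :=
  ∀ (d : ℕ) [NeZero d] (p : unitInterval) (u : ℝ), 2 ≤ d → aw d p ≠ ⊤ → 0 < u →
    Tendsto (fun n : ℕ => perc d p {ω | ∃ x ∈ Bx d n, u * (n : ℝ) ^ (d - 1) ≤ freeCard d n ω x})
      atTop (𝓝 0)

theorem stFree (hInd : StInd) (hLim : StLim) (hTwo : StTwoPt) (hPairs : StPairs)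
    (hTail : StTail) : StFree := by
  intro d _ p u hd haw hu
  haveI : IsProbabilityMeasure (perc d p) := (hInd d p).2.2.2
  -- the arm probabilities
  set f : ℕ → ℝ := fun k => (perc d p).real (arm d k) with hf
  have hf0 : ∀ k, 0 ≤ f k := fun k => measureReal_nonneg
  have hfanti : Antitone f := by
    refine antitone_nat_of_succ_le fun k => ?_
    simp only [hf, measureReal_def]
    exact ENNReal.toReal_mono (measure_ne_top _ _) ((hLim d p k).2.1)
  have hfsum : Summable f := by
    have h1 : ∑' r : ℕ, perc d p (arm d r) ≠ ⊤ := by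
      intro h
      apply haw
      unfold aw
      rw [h, ENNReal.mul_top]
      have : (d : ENNReal) ≠ 0 := by exact_mod_cast (NeZero.ne d)
      simp [this]
    exact ENNReal.summable_toReal h1
  have key : ∀ η : ℝ, 0 < η → ∃ m : ℕ, ∀ n : ℕ, 2 * ((2 : ℝ) * m + 1) ^ d ≤ u * (n : ℝ) ^ (d - 1) →
      1 ≤ n → 
      (perc d p).real {ω | ∃ x ∈ Bx d n, u * (n : ℝ) ^ (d - 1) ≤ freeCard d n ω x} ≤
        8 * d ^ 2 * η / u ^ 2 := by
    intro η hη
    obtain ⟨m, hm⟩ := hTail d f hd hfanti hf0 hfsum η hη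
    refine ⟨m, fun n hn hn1 => ?_⟩
    have h1 := hPairs d p n m (u * (n : ℝ) ^ (d - 1)) hn
    have h2 : ∑ x ∈ Bx d n, ∑ y ∈ (Bx d n).filter (fun y => m < ds x y),
        (perc d p).real (conn Set.univ x y) ≤ 4 * d ^ 2 * (η * (n : ℝ) ^ (2 * d - 2)) := by
      refine le_trans ?_ (mul_le_mul_of_nonneg_left (hm n) (by positivity))
      rw [Finset.mul_sum]
      refine Finset.sum_le_sum fun x hx => ?_
      rw [Finset.mul_sum]
      refine Finset.sum_le_sum fun y hy => ?_
      have hy' : m < ds x y := (Finset.mem_filter.mp hy).2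
      have h3 : 2 * ((ds x y - 1) / 2) + 1 ≤ ds x y := by omega
      have h4 := hTwo d p x y ((ds x y - 1) / 2) h3
      have h5 : (perc d p).real (conn Set.univ x y) ≤
          ((2 * d * perc d p (arm d ((ds x y - 1) / 2))) ^ 2).toReal := by
        rw [measureReal_def]
        apply ENNReal.toReal_mono _ h4
        apply ENNReal.pow_ne_top
        apply ENNReal.mul_ne_top
        · exact ENNReal.mul_ne_top (by simp) (by simp)
        · exact measure_ne_top _ _
      refine h5.trans (le_of_eq ?_)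
      rw [ENNReal.toReal_pow, ENNReal.toReal_mul, ENNReal.toReal_mul]
      simp only [ENNReal.toReal_ofNat, ENNReal.toReal_natCast, hf, measureReal_def]
      ring
    have hn0 : (0 : ℝ) < n := by exact_mod_cast hn1
    have hpow : ((n : ℝ) ^ (d - 1)) ^ 2 = (n : ℝ) ^ (2 * d - 2) := by
      rw [← pow_mul]; congr 1; omega
    calc (perc d p).real {ω | ∃ x ∈ Bx d n, u * (n : ℝ) ^ (d - 1) ≤ freeCard d n ω x} 
        ≤ 2 / (u * (n : ℝ) ^ (d - 1)) ^ 2 * (4 * d ^ 2 * (η * (n : ℝ) ^ (2 * d - 2))) :=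
          h1.trans (mul_le_mul_of_nonneg_left h2 (by positivity))
      _ = 8 * d ^ 2 * η / u ^ 2 := by
          rw [mul_pow, hpow]
          have : (n : ℝ) ^ (2 * d - 2) ≠ 0 := by positivity
          field_simp
          ring
  -- conclude
  rw [ENNReal.tendsto_nhds_zero]
  intro ε hε
  rcases eq_or_ne ε ⊤ with rfl | hεt
  · exact Eventually.of_forall fun _ => le_top
  have hεr : 0 < ε.toReal := ENNReal.toReal_pos hε.ne' hεt
  obtain ⟨m, hm⟩ := key (ε.toReal * u ^ 2 / (8 * d ^ 2)) (by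
    have : (0 : ℝ) < d := by exact_mod_cast (Nat.pos_of_ne_zero (NeZero.ne d))
    positivity)
  have hgrow : Tendsto (fun n : ℕ => u * (n : ℝ) ^ (d - 1)) atTop atTop := by
    apply Tendsto.const_mul_atTop hu
    exact (tendsto_pow_atTop (by omega)).comp tendsto_natCast_atTop_atTop
  filter_upwards [hgrow.eventually_ge_atTop (2 * ((2 : ℝ) * m + 1) ^ d), eventually_ge_atTop 1]
    with n hn hn1
  have h := hm n hn hn1
  have h' : (perc d p).real {ω | ∃ x ∈ Bx d n, u * (n : ℝ) ^ (d - 1) ≤ freeCard d n ω x} ≤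
      ε.toReal := by
    refine h.trans (le_of_eq ?_)
    have h1 : (0 : ℝ) < d := by exact_mod_cast (Nat.pos_of_ne_zero (NeZero.ne d))
    field_simp
  rw [measureReal_def] at h'
  exact (ENNReal.toReal_le_toReal (measure_ne_top _ _) hεt).mp h'

end Pool.Agent.Helper56.WP
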