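import Pool.Agent.Helper56.WP.FinalA

/-! # MP_65faa7_pr, assembly 2 -/

set_option autoImplicit false

open MeasureTheory Filter Topology

namespace Pool.Agent.Helper56.WP

theorem stFinal_of (hInd : StInd) (hLim : StLim) (hGeo : StGeo) (hLow : StLow) (hUpp : StUpp)
    (hFree : StFree) : StFinal := by
  intro d _ p hd
  have : IsProbabilityMeasure (perc d p) := (hInd d p).2.2.2
  have hd0 : d ≠ 0 := NeZero.ne d
  refine ⟨?_, ?_, ?_⟩
  · unfold aw
    have h1 : perc d p (arm d 0) ≤ ∑' r : ℕ, perc d p (arm d r) := ENNReal.le_tsum 0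
    rw [(hLim d p 0).2.2] at h1
    calc 2 * (d : ENNReal) = 2 * d * 1 := by rw [mul_one]
      _ ≤ _ := by gcongr
  · intro u hu
    refine tendsto_of_tendsto_of_tendsto_of_le_of_le' tendsto_const_nhds (hLow d p u hd hu)
      (Eventually.of_forall fun _ => zero_le) ?_
    filter_upwards [eventually_ge_atTop 1] with n hn
    apply measure_mono
    intro ω hω
    have hω' : (wiredMax n ω : ℝ) ≤ u * (n : ℝ) ^ (d - 1) := hω
    have h2 := (hGeo d n ω (by omega) hn).2.1
    have h3 : (W d n ω : ℝ) ≤ (wiredMax n ω : ℝ) := by exact_mod_cast h2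
    exact h3.trans hω'
  · intro u hu
    have hu0 : 0 < u := by
      by_contra h
      rw [ENNReal.ofReal_of_nonpos (not_lt.mp h)] at hu
      exact absurd hu (not_lt.mpr zero_le)
    have h1 := hUpp d p u hd hu
    have h2 := hFree d p u hd (ne_top_of_lt hu) hu0
    have h3 := h1.add h2
    rw [add_zero] at h3
    refine tendsto_of_tendsto_of_tendsto_of_le_of_le' tendsto_const_nhds h3
      (Eventually.of_forall fun _ => zero_le) ?_
    filter_upwards [eventually_ge_atTop 1] with n hn
    refine le_trans (measure_mono ?_) (measure_union_le _ _)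
    intro ω hω
    have hω' : u * (n : ℝ) ^ (d - 1) ≤ (wiredMax n ω : ℝ) := hω
    rcases (hGeo d n ω (by omega) hn).2.2 with h4 | ⟨x, hx, h4⟩
    · left
      have h5 : (wiredMax n ω : ℝ) ≤ (W d n ω : ℝ) := by exact_mod_cast h4
      exact hω'.trans h5
    · right
      have h5 : (wiredMax n ω : ℝ) ≤ (freeCard d n ω x : ℝ) := by exact_mod_cast h4
      exact ⟨x, hx, hω'.trans h5⟩

/-! ### the version in which the identified boundary counts as one vertex -/

open Classical in
/-- number of vertices of the cluster of `x` after all boundary points have been identified to a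
single vertex, which counts as one vertex -/
noncomputable def wiredCard1 {d : ℕ} (n : ℕ) (ω : Cfg d) (x : V d) : ℕ :=
  ((Bx d n \ bd d n).filter fun y => (wiredG n ω).Reachable x y).card +
    if ∃ z ∈ bd d n, (wiredG n ω).Reachable x z then 1 else 0

/-- size of the largest wired cluster, the identified boundary counting as one vertex -/
noncomputable def wiredMax1 {d : ℕ} (n : ℕ) (ω : Cfg d) : ℕ := (Bx d n).sup (wiredCard1 n ω)

theorem bd_subset (d n : ℕ) : bd d n ⊆ Bx d n := Finset.filter_subset _ _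

theorem zero_mem_bd {d n : ℕ} (hd : 1 ≤ d) (hn : 1 ≤ n) : (0 : V d) ∈ bd d n := by
  unfold bd Bx
  rw [Finset.mem_filter]
  refine ⟨?_, ⟨⟨0, hd⟩, Or.inl rfl⟩⟩
  rw [Fintype.mem_piFinset]
  intro i
  simp only [Pi.zero_apply, Finset.mem_Ico, le_refl, true_and]
  exact_mod_cast hn

theorem openG_le_wiredG {d n : ℕ} (ω : Cfg d) : openG (Bx d n : Set (V d)) ω ≤ wiredG n ω := by
  intro x y h
  exact Or.inl h

theorem bd_reach {d n : ℕ} (ω : Cfg d) {x y : V d} (hx : x ∈ bd d n) (hy : y ∈ bd d n) :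
    (wiredG n ω).Reachable x y := by
  by_cases h : x = y
  · rw [h]
  · exact SimpleGraph.Adj.reachable (Or.inr ⟨h, hx, hy⟩)

theorem W_le (d n : ℕ) (ω : Cfg d) (hd : 1 ≤ d) (hn : 1 ≤ n) :
    W d n ω ≤ wiredMax1 n ω + (bd d n).card := by
  classical
  have h0 := zero_mem_bd hd hn
  have h1 : W d n ω ≤ ((Bx d n \ bd d n).filter fun y => (wiredG n ω).Reachable 0 y).card +
      (bd d n).card := by
    unfold W
    refine le_trans (Finset.card_le_card ?_) (Finset.card_union_le _ _)
    intro x hx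
    rw [Finset.mem_filter] at hx
    rw [Finset.mem_union]
    by_cases h : x ∈ bd d n
    · exact Or.inr h
    · left
      rw [Finset.mem_filter, Finset.mem_sdiff]
      refine ⟨⟨hx.1, h⟩, ?_⟩
      obtain ⟨z, hz, hxz⟩ := hx.2
      exact (bd_reach ω h0 hz).trans (hxz.mono (openG_le_wiredG ω)).symm
  refine h1.trans (Nat.add_le_add_right ?_ _)
  refine le_trans ?_ (Finset.le_sup (f := wiredCard1 n ω) (bd_subset d n h0))
  unfold wiredCard1
  exact Nat.le_add_right _ _

theorem free_of_not {d n : ℕ} (ω : Cfg d) {x y : V d}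
    (hx : ¬ ∃ z ∈ bd d n, (wiredG n ω).Reachable x z) (h : (wiredG n ω).Reachable x y) :
    (openG (Bx d n : Set (V d)) ω).Reachable x y := by
  obtain ⟨w⟩ := h
  induction w with
  | nil => exact SimpleGraph.Reachable.refl _
  | cons hadj _ ih =>
    rcases hadj with h1 | h1
    · refine h1.reachable.trans (ih ?_)
      rintro ⟨z, hz, hz2⟩
      exact hx ⟨z, hz, (SimpleGraph.Adj.reachable (Or.inl h1)).trans hz2⟩
    · exact absurd ⟨_, h1.2.1, SimpleGraph.Reachable.refl _⟩ hx

theorem wiredMax1_le (hGeo : StGeo) (d n : ℕ) (ω : Cfg d) (hd : 1 ≤ d) (hn : 1 ≤ n) :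
    wiredMax1 n ω + (bd d n).card ≤ W d n ω + 1 ∨ ∃ x ∈ Bx d n, wiredMax1 n ω ≤ freeCard d n ω x := by
  classical
  have h0 := zero_mem_bd hd hn
  obtain ⟨x, hx, hmax⟩ := Finset.exists_mem_eq_sup (Bx d n) ⟨0, bd_subset d n h0⟩ (wiredCard1 n ω)
  have hmax' : wiredMax1 n ω = wiredCard1 n ω x := hmax
  by_cases hxb : ∃ z ∈ bd d n, (wiredG n ω).Reachable x z
  · have h1 : wiredCard1 n ω x + (bd d n).card ≤ wiredCard n ω x + 1 := by
      unfold wiredCard1 wiredCard
      rw [if_pos hxb]
      have h2 : ((Bx d n \ bd d n).filter fun y => (wiredG n ω).Reachable x y).card +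
          (bd d n).card ≤ ((Bx d n).filter fun y => (wiredG n ω).Reachable x y).card := by
        rw [← Finset.card_union_of_disjoint]
        · apply Finset.card_le_card
          intro y hy
          rw [Finset.mem_union, Finset.mem_filter, Finset.mem_sdiff] at hy
          rw [Finset.mem_filter]
          rcases hy with hy | hy
          · exact ⟨hy.1.1, hy.2⟩
          · obtain ⟨z, hz, hz2⟩ := hxb
            exact ⟨bd_subset d n hy, hz2.trans (bd_reach ω hz hy)⟩
        · rw [Finset.disjoint_left]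
          intro y hy hy2
          rw [Finset.mem_filter, Finset.mem_sdiff] at hy
          exact hy.1.2 hy2
      omega
    have h2 : wiredCard n ω x ≤ wiredMax n ω := Finset.le_sup (f := wiredCard n ω) hx
    have h3 : 1 ≤ (bd d n).card := Finset.card_pos.mpr ⟨0, h0⟩
    rcases (hGeo d n ω hd hn).2.2 with h4 | ⟨x', hx', h4⟩
    · left; omega
    · right; exact ⟨x', hx', by omega⟩
  · right
    refine ⟨x, hx, ?_⟩
    rw [hmax']
    unfold wiredCard1 freeCard
    rw [if_neg hxb, add_zero]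
    apply Finset.card_le_card
    intro y hy
    rw [Finset.mem_filter, Finset.mem_sdiff] at hy
    rw [Finset.mem_filter]
    exact ⟨hy.1.1, free_of_not ω hxb hy.2⟩

/-- size of a face -/
theorem card_Bx (d n : ℕ) : (Bx d n).card = n ^ d := by
  unfold Bx
  rw [Fintype.card_piFinset]
  simp

theorem card_face {d n : ℕ} (hd : 1 ≤ d) (i : Fin d) (c : ℤ) :
    ((Bx d n).filter fun x => x i = c).card ≤ n ^ (d - 1) := by
  classical
  obtain ⟨m, rfl⟩ : ∃ m, d = m + 1 := ⟨d - 1, by omega⟩
  rw [show m + 1 - 1 = m by omega, ← card_Bx m n]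
  apply Finset.card_le_card_of_injOn (fun x => fun j => x (i.succAbove j))
  · intro x hx
    rw [Finset.mem_coe, Finset.mem_filter] at hx
    unfold Bx at hx ⊢
    rw [Finset.mem_coe, Fintype.mem_piFinset]
    rw [Fintype.mem_piFinset] at hx
    intro j
    exact hx.1 _
  · intro x hx y hy hxy
    rw [Finset.mem_coe, Finset.mem_filter] at hx hy
    funext j
    rcases Fin.eq_self_or_eq_succAbove i j with h | ⟨k, h⟩
    · rw [h, hx.2, hy.2]
    · rw [h]; exact congrFun hxy k

theorem card_bd_le {d n : ℕ} (hd : 1 ≤ d) : (bd d n).card ≤ 2 * d * n ^ (d - 1) := by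
  classical
  have h1 : bd d n ⊆ Finset.univ.biUnion fun i : Fin d =>
      ((Bx d n).filter fun x => x i = 0) ∪ ((Bx d n).filter fun x => x i = n - 1) := by
    intro x hx
    unfold bd at hx
    rw [Finset.mem_filter] at hx
    obtain ⟨i, hi⟩ := hx.2
    rw [Finset.mem_biUnion]
    refine ⟨i, Finset.mem_univ _, ?_⟩
    rw [Finset.mem_union, Finset.mem_filter, Finset.mem_filter]
    rcases hi with hi | hi
    · exact Or.inl ⟨hx.1, hi⟩
    · exact Or.inr ⟨hx.1, hi⟩
  refine (Finset.card_le_card h1).trans (Finset.card_biUnion_le.trans ?_)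
  calc ∑ i : Fin d, (((Bx d n).filter fun x => x i = 0) ∪
        ((Bx d n).filter fun x => x i = n - 1)).card 
      ≤ ∑ i : Fin d, 2 * n ^ (d - 1) := by
        refine Finset.sum_le_sum fun i _ => ?_
        refine (Finset.card_union_le _ _).trans ?_
        have := card_face (n := n) hd i 0
        have := card_face (n := n) hd i ((n : ℤ) - 1)
        omega
    _ = 2 * d * n ^ (d - 1) := by
        rw [Finset.sum_const, Finset.card_univ, Fintype.card_fin, smul_eq_mul]; ring

theorem card_bd {d n : ℕ} (hn : 2 ≤ n) : (bd d n).card + (n - 2) ^ d = n ^ d := by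
  classical
  have h1 : ((Bx d n).filter fun x => ¬ ∃ i, x i = 0 ∨ x i = (n : ℤ) - 1) =
      Fintype.piFinset fun _ : Fin d => Finset.Ico (1 : ℤ) (n - 1) := by
    ext x
    unfold Bx
    rw [Finset.mem_filter, Fintype.mem_piFinset, Fintype.mem_piFinset]
    constructor
    · rintro ⟨h1, h2⟩ i
      have h3 := Finset.mem_Ico.mp (h1 i)
      have h4 : ¬ (x i = 0 ∨ x i = (n : ℤ) - 1) := fun h => h2 ⟨i, h⟩
      rw [Finset.mem_Ico]
      omega
    · intro h
      refine ⟨fun i => ?_, ?_⟩
      · have := Finset.mem_Ico.mp (h i)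
        rw [Finset.mem_Ico]
        omega
      · rintro ⟨i, hi⟩
        have := Finset.mem_Ico.mp (h i)
        omega
  have h2 := Finset.card_filter_add_card_filter_not (s := Bx d n)
    (fun x => ∃ i, x i = 0 ∨ x i = (n : ℤ) - 1)
  rw [card_Bx, h1, Fintype.card_piFinset] at h2
  have h3 : ∏ _i : Fin d, (Finset.Ico (1 : ℤ) (n - 1)).card = (n - 2) ^ d := by
    simp only [Int.card_Ico, Finset.prod_const, Finset.card_univ, Fintype.card_fin]
    congr 1
    omega
  rw [h3] at h2
  exact h2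

theorem pow_diff (d : ℕ) (a b : ℝ) (ha : 0 ≤ a) (hab : a ≤ b) :
    d * (b - a) * a ^ (d - 1) ≤ b ^ d - a ^ d := by
  have h1 : b ^ d - a ^ d = (∑ i ∈ Finset.range d, b ^ i * a ^ (d - 1 - i)) * (b - a) := by
    have := (Commute.all b a).geom_sum₂_mul d
    rw [← this]
  rw [h1]
  have h2 : d * a ^ (d - 1) ≤ ∑ i ∈ Finset.range d, b ^ i * a ^ (d - 1 - i) := by
    have h3 : ∑ i ∈ Finset.range d, a ^ (d - 1) ≤ ∑ i ∈ Finset.range d, b ^ i * a ^ (d - 1 - i) := by
      refine Finset.sum_le_sum fun i hi => ?_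
      have hi' := Finset.mem_range.mp hi
      calc a ^ (d - 1) = a ^ i * a ^ (d - 1 - i) := by rw [← pow_add]; congr 1; omega
        _ ≤ b ^ i * a ^ (d - 1 - i) := by gcongr
    rw [Finset.sum_const, Finset.card_range, nsmul_eq_mul] at h3
    exact h3
  calc d * (b - a) * a ^ (d - 1) = (d * a ^ (d - 1)) * (b - a) := by ring
    _ ≤ _ := mul_le_mul_of_nonneg_right h2 (by linarith)

theorem card_bd_ge (d : ℕ) (δ : ℝ) (hδ : 0 < δ) :
    ∀ᶠ n : ℕ in atTop, (2 * d - δ) * (n : ℝ) ^ (d - 1) ≤ ((bd d n).card : ℝ) := by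
  have h1 : Tendsto (fun n : ℕ => (2 : ℝ) * d * (((n : ℝ) - 2) / n) ^ (d - 1)) atTop
      (𝓝 (2 * d * 1 ^ (d - 1))) := by
    apply Tendsto.const_mul
    apply Tendsto.pow
    have h2 : Tendsto (fun n : ℕ => 1 - (2 : ℝ) / n) atTop (𝓝 (1 - 0)) := by
      apply Tendsto.sub tendsto_const_nhds
      exact tendsto_const_div_atTop_nhds_zero_nat 2
    rw [sub_zero] at h2
    refine h2.congr' ?_
    filter_upwards [eventually_gt_atTop 0] with n hn
    have : (n : ℝ) ≠ 0 := by positivity
    field_simp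
  rw [one_pow, mul_one] at h1
  filter_upwards [h1.eventually_const_le (show 2 * (d : ℝ) - δ < 2 * d by linarith),
    eventually_ge_atTop 2] with n hn hn2
  have hn0 : (0 : ℝ) < n := by positivity
  have hn2' : (2 : ℝ) ≤ n := by exact_mod_cast hn2
  have h3 := card_bd (d := d) hn2
  have h4 : ((bd d n).card : ℝ) + ((n : ℝ) - 2) ^ d = (n : ℝ) ^ d := by
    have : (((bd d n).card + (n - 2) ^ d : ℕ) : ℝ) = ((n ^ d : ℕ) : ℝ) := by rw [h3]
    push_cast [Nat.cast_sub hn2] at this
    exact this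
  have h5 := pow_diff d ((n : ℝ) - 2) n (by linarith) (by linarith)
  have h6 : (2 * d - δ) * (n : ℝ) ^ (d - 1) ≤ 2 * d * ((n : ℝ) - 2) ^ (d - 1) := by
    calc (2 * d - δ) * (n : ℝ) ^ (d - 1) 
        ≤ (2 * d * (((n : ℝ) - 2) / n) ^ (d - 1)) * (n : ℝ) ^ (d - 1) := by gcongr
      _ = 2 * d * ((n : ℝ) - 2) ^ (d - 1) := by
          rw [div_pow]; field_simp
  have h7 : (d : ℝ) * ((n : ℝ) - ((n : ℝ) - 2)) * ((n : ℝ) - 2) ^ (d - 1) =
      2 * d * ((n : ℝ) - 2) ^ (d - 1) := by ring
  linarith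

/-- final statement, boundary counted as one point -/
def StFinal1 : Prop :=
  ∀ (d : ℕ) [NeZero d] (p : unitInterval), 2 ≤ d →
    (∀ u : ℝ, ENNReal.ofReal u < aw d p - 2 * d →
      Tendsto (fun n : ℕ => perc d p {ω | (wiredMax1 n ω : ℝ) ≤ u * (n : ℝ) ^ (d - 1)}) atTop
        (𝓝 0)) ∧
    (∀ u : ℝ, aw d p - 2 * d < ENNReal.ofReal u →
      Tendsto (fun n : ℕ => perc d p {ω | u * (n : ℝ) ^ (d - 1) ≤ (wiredMax1 n ω : ℝ)}) atTop
        (𝓝 0))

theorem stFinal1_of (hInd : StInd) (hGeo : StGeo) (hLow : StLow) (hUpp : StUpp)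
    (hFree : StFree) (hFin : StFinal) : StFinal1 := by
  intro d _ p hd
  have : IsProbabilityMeasure (perc d p) := (hInd d p).2.2.2
  have hd0 : d ≠ 0 := NeZero.ne d
  have h2d : 2 * (d : ENNReal) ≤ aw d p := (hFin d p hd).1
  have h2d' : (2 * (d : ENNReal)) = ENNReal.ofReal (2 * d) := by
    rw [ENNReal.ofReal_mul (by norm_num), ENNReal.ofReal_natCast]; simp
  refine ⟨?_, ?_⟩
  · intro u hu
    rcases lt_or_ge u 0 with hneg | hpos
    · -- then the event is empty for n ≥ 1
      refine tendsto_const_nhds.congr' ?_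
      filter_upwards [eventually_ge_atTop 1] with n hn
      symm
      convert measure_empty (μ := perc d p)
      ext ω
      simp only [Set.mem_ofPred_eq, Set.mem_empty_iff_false, iff_false, not_le]
      have hn0 : (0 : ℝ) < n := by exact_mod_cast hn
      have : 0 < (n : ℝ) ^ (d - 1) := by positivity
      have h1 : u * (n : ℝ) ^ (d - 1) < 0 := mul_neg_of_neg_of_pos hneg this
      exact lt_of_lt_of_le h1 (Nat.cast_nonneg _)
    · have hu' : ENNReal.ofReal (u + 2 * d) < aw d p := by
        rw [ENNReal.ofReal_add hpos (by positivity), ← h2d']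
        exact lt_tsub_iff_right.mp hu
      refine tendsto_of_tendsto_of_tendsto_of_le_of_le' tendsto_const_nhds
        (hLow d p (u + 2 * d) hd hu') (Eventually.of_forall fun _ => zero_le) ?_
      filter_upwards [eventually_ge_atTop 1] with n hn
      apply measure_mono
      intro ω hω
      have hω' : (wiredMax1 n ω : ℝ) ≤ u * (n : ℝ) ^ (d - 1) := hω
      have h1 := W_le d n ω (by omega) hn
      have h2 := card_bd_le (d := d) (n := n) (by omega)
      have h3 : (W d n ω : ℝ) ≤ (wiredMax1 n ω : ℝ) + ((bd d n).card : ℝ) := by exact_mod_cast h1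
      have h4 : ((bd d n).card : ℝ) ≤ 2 * d * (n : ℝ) ^ (d - 1) := by exact_mod_cast h2
      show (W d n ω : ℝ) ≤ (u + 2 * d) * (n : ℝ) ^ (d - 1)
      linarith
  · intro u hu
    have hu0 : 0 < u := by
      by_contra h
      rw [ENNReal.ofReal_of_nonpos (not_lt.mp h)] at hu
      exact absurd hu (not_lt.mpr zero_le)
    have hawt : aw d p ≠ ⊤ := by
      intro h
      rw [h] at hu
      have : (⊤ : ENNReal) - 2 * d = ⊤ := by
        rw [h2d']; exact ENNReal.top_sub ENNReal.ofReal_ne_top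
      rw [this] at hu
      exact absurd hu (not_lt.mpr le_top)
    -- choose δ
    have hreal : (aw d p).toReal < u + 2 * d := by
      have h1 : aw d p < ENNReal.ofReal (u + 2 * d) := by
        rw [ENNReal.ofReal_add hu0.le (by positivity), ← h2d']
        exact (ENNReal.sub_lt_iff_lt_right (by rw [h2d']; exact ENNReal.ofReal_ne_top) h2d).mp hu
      rw [← ENNReal.toReal_ofReal (show 0 ≤ u + 2 * (d : ℝ) by positivity)]
      exact (ENNReal.toReal_lt_toReal hawt ENNReal.ofReal_ne_top).mpr h1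
    obtain ⟨δ, hδ0, hδ⟩ : ∃ δ : ℝ, 0 < δ ∧ (aw d p).toReal < u + 2 * d - 2 * δ := 
      ⟨(u + 2 * d - (aw d p).toReal) / 4, by linarith, by linarith⟩
    have hu2 : aw d p < ENNReal.ofReal (u + 2 * d - 2 * δ) := by
      rw [← ENNReal.ofReal_toReal hawt]
      apply (ENNReal.ofReal_lt_ofReal_iff _).mpr hδ
      exact lt_of_le_of_lt ENNReal.toReal_nonneg hδ
    have h1 := hUpp d p (u + 2 * d - 2 * δ) hd hu2
    have h2 := hFree d p u hd hawt hu0
    have h3 := h1.add h2
    rw [add_zero] at h3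
    refine tendsto_of_tendsto_of_tendsto_of_le_of_le' tendsto_const_nhds h3
      (Eventually.of_forall fun _ => zero_le) ?_
    have hgrow : Tendsto (fun n : ℕ => δ * (n : ℝ) ^ (d - 1)) atTop atTop := by
      apply Tendsto.const_mul_atTop hδ0
      exact (tendsto_pow_atTop (by omega)).comp tendsto_natCast_atTop_atTop
    filter_upwards [eventually_ge_atTop 1, card_bd_ge d δ hδ0, hgrow.eventually_ge_atTop 1]
      with n hn hbd hgr
    refine le_trans (measure_mono ?_) (measure_union_le _ _)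
    intro ω hω
    have hω' : u * (n : ℝ) ^ (d - 1) ≤ (wiredMax1 n ω : ℝ) := hω
    rcases wiredMax1_le hGeo d n ω (by omega) hn with h4 | ⟨x, hx, h4⟩
    · left
      have h5 : (wiredMax1 n ω : ℝ) + ((bd d n).card : ℝ) ≤ (W d n ω : ℝ) + 1 := by
        exact_mod_cast h4
      show (u + 2 * d - 2 * δ) * (n : ℝ) ^ (d - 1) ≤ (W d n ω : ℝ)
      linarith
    · right
      have h5 : (wiredMax1 n ω : ℝ) ≤ (freeCard d n ω x : ℝ) := by exact_mod_cast h4
      exact ⟨x, hx, hω'.trans h5⟩

end Pool.Agent.Helper56.WP
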