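import Pool.Agent.Helper56.WP.FinalB

/-! # MP_65faa7_pr, assembly 3: convergence in probability -/

set_option autoImplicit false

open MeasureTheory Filter Topology

namespace Pool.Agent.Helper56.WP

theorem conv_of {Ω : Type} [MeasurableSpace Ω] (μ : Measure Ω) (M : ℕ → Ω → ℕ) (k : ℕ)
    (a : ENNReal)
    (hlow : ∀ u : ℝ, ENNReal.ofReal u < a →
      Tendsto (fun n : ℕ => μ {ω | (M n ω : ℝ) ≤ u * (n : ℝ) ^ k}) atTop (𝓝 0))
    (hupp : ∀ u : ℝ, a < ENNReal.ofReal u →
      Tendsto (fun n : ℕ => μ {ω | u * (n : ℝ) ^ k ≤ (M n ω : ℝ)}) atTop (𝓝 0)) :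
    (a ≠ ⊤ → TendstoInMeasure μ (fun (n : ℕ) ω => (M n ω : ℝ) / (n : ℝ) ^ k) atTop
      (fun _ => a.toReal)) ∧
    (a = ⊤ → ∀ K : ℝ, Tendsto (fun n : ℕ => μ {ω | (M n ω : ℝ) / (n : ℝ) ^ k ≤ K}) atTop
      (𝓝 0)) := by
  constructor
  · intro ha
    rw [tendstoInMeasure_iff_dist]
    intro ε hε
    have h2 : a < ENNReal.ofReal (a.toReal + ε) := by
      nth_rw 1 [← ENNReal.ofReal_toReal ha]
      apply (ENNReal.ofReal_lt_ofReal_iff (by positivity)).mpr
      linarith
    have hU := hupp _ h2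
    have hL : Tendsto (fun n : ℕ => μ {ω | (M n ω : ℝ) ≤ (a.toReal - ε) * (n : ℝ) ^ k}) atTop
        (𝓝 0) := by
      rcases lt_or_ge (a.toReal - ε) 0 with hneg | hpos
      · refine tendsto_const_nhds.congr' ?_
        filter_upwards [eventually_ge_atTop 1] with n hn
        symm
        convert measure_empty (μ := μ)
        ext ω
        simp only [Set.mem_ofPred_eq, Set.mem_empty_iff_false, iff_false, not_le]
        have hn0 : (0 : ℝ) < n := by exact_mod_cast hn
        have : 0 < (n : ℝ) ^ k := by positivity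
        exact lt_of_lt_of_le (mul_neg_of_neg_of_pos hneg this) (Nat.cast_nonneg _)
      · apply hlow
        nth_rw 2 [← ENNReal.ofReal_toReal ha]
        apply (ENNReal.ofReal_lt_ofReal_iff (by linarith)).mpr
        linarith
    have h3 := hL.add hU
    rw [add_zero] at h3
    refine tendsto_of_tendsto_of_tendsto_of_le_of_le' tendsto_const_nhds h3
      (Eventually.of_forall fun _ => zero_le) ?_
    filter_upwards [eventually_ge_atTop 1] with n hn
    refine le_trans (measure_mono ?_) (measure_union_le _ _)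
    intro ω hω
    have hn0 : (0 : ℝ) < n := by exact_mod_cast hn
    have hnk : 0 < (n : ℝ) ^ k := by positivity
    have hω' : ε ≤ |(M n ω : ℝ) / (n : ℝ) ^ k - a.toReal| := by
      simpa [Real.dist_eq] using hω
    rcases le_abs.mp hω' with h | h
    · right
      show (a.toReal + ε) * (n : ℝ) ^ k ≤ (M n ω : ℝ)
      rw [← le_div_iff₀ hnk]; linarith
    · left
      show (M n ω : ℝ) ≤ (a.toReal - ε) * (n : ℝ) ^ k
      rw [← div_le_iff₀ hnk]; linarith
  · intro ha K
    have h1 := hlow K (by rw [ha]; exact ENNReal.ofReal_lt_top)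
    refine h1.congr' ?_
    filter_upwards [eventually_ge_atTop 1] with n hn
    have hn0 : (0 : ℝ) < n := by exact_mod_cast hn
    have hnk : 0 < (n : ℝ) ^ k := by positivity
    congr 1
    ext ω
    simp only [Set.mem_ofPred_eq]
    rw [div_le_iff₀ hnk]

/-- the final result -/
theorem final_of (hFin : StFinal) (hFin1 : StFinal1) (d : ℕ) [NeZero d] (p : unitInterval)
    (hd : 2 ≤ d) :
    2 * (d : ENNReal) ≤ aw d p ∧
    (aw d p ≠ ⊤ →
      TendstoInMeasure (perc d p) (fun (n : ℕ) ω => (wiredMax n ω : ℝ) / (n : ℝ) ^ (d - 1)) atTop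
        (fun _ => (aw d p).toReal) ∧
      TendstoInMeasure (perc d p) (fun (n : ℕ) ω => (wiredMax1 n ω : ℝ) / (n : ℝ) ^ (d - 1)) atTop
        (fun _ => (aw d p).toReal - 2 * d)) ∧
    (aw d p = ⊤ → ∀ K : ℝ,
      Tendsto (fun n : ℕ => perc d p {ω | (wiredMax n ω : ℝ) / (n : ℝ) ^ (d - 1) ≤ K}) atTop
        (𝓝 0) ∧
      Tendsto (fun n : ℕ => perc d p {ω | (wiredMax1 n ω : ℝ) / (n : ℝ) ^ (d - 1) ≤ K}) atTop
        (𝓝 0)) := by
  obtain ⟨h1, h2, h3⟩ := hFin d p hd
  obtain ⟨h4, h5⟩ := hFin1 d p hd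
  have hA := conv_of (perc d p) (fun n ω => wiredMax n ω) (d - 1) (aw d p) h2 h3
  have hB := conv_of (perc d p) (fun n ω => wiredMax1 n ω) (d - 1) (aw d p - 2 * d) h4 h5
  have h2d' : (2 * (d : ENNReal)) = ENNReal.ofReal (2 * d) := by
    rw [ENNReal.ofReal_mul (by norm_num), ENNReal.ofReal_natCast]; simp
  refine ⟨h1, ?_, ?_⟩
  · intro ha
    refine ⟨hA.1 ha, ?_⟩
    have h6 := hB.1 (ENNReal.sub_ne_top ha)
    have h7 : (aw d p - 2 * d).toReal = (aw d p).toReal - 2 * d := by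
      rw [ENNReal.toReal_sub_of_le h1 ha, ENNReal.toReal_mul]
      simp
    rw [h7] at h6
    exact h6
  · intro ha K
    refine ⟨hA.2 ha K, hB.2 ?_ K⟩
    rw [ha, h2d']
    exact ENNReal.top_sub ENNReal.ofReal_ne_top

end Pool.Agent.Helper56.WP
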