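import Pool.Agent.Helper56.WP.Statements

/-! # MP_65faa7_pr, module M_Cheb -/

set_option autoImplicit false

open MeasureTheory Filter Topology

namespace Pool.Agent.Helper56.WP

/-- number of points whose box meets the box of `x` -/
theorem cheb_card {d : ℕ} (L : ℕ) (X : Finset (V d)) (x : V d) :
    ((X.filter fun y => ∀ i, |y i - x i| ≤ 2 * (L : ℤ)).card : ℝ) ≤ (4 * L + 1) ^ d := by
  classical
  have hsub : (X.filter fun y => ∀ i, |y i - x i| ≤ 2 * (L : ℤ)) ⊆
      Fintype.piFinset fun i => Finset.Icc (x i - 2 * (L : ℤ)) (x i + 2 * (L : ℤ)) := by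
    intro y hy
    rw [Finset.mem_filter] at hy
    rw [Fintype.mem_piFinset]
    intro i
    rw [Finset.mem_Icc]
    have h := abs_le.mp (hy.2 i)
    constructor <;> linarith [h.1, h.2]
  have hc := Finset.card_le_card hsub
  rw [Fintype.card_piFinset] at hc
  have h1 : ∀ i : Fin d, (Finset.Icc (x i - 2 * (L : ℤ)) (x i + 2 * (L : ℤ))).card = 4 * L + 1 := by
    intro i
    rw [Int.card_Icc]
    omega
  rw [Finset.prod_congr rfl (fun i _ => h1 i), Finset.prod_const, Finset.card_univ,
    Fintype.card_fin] at hc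
  exact_mod_cast hc

theorem stCheb (hInd : StInd) (hLoc : StLoc) : StCheb := by
  classical
  intro d p L X A q δ hdep hq hδ hX
  obtain ⟨hmeas, hindep, -, hprob⟩ := hInd d p
  obtain ⟨hfin, -, -, -, -⟩ := hLoc d
  have hfinP : ∀ x : V d, (prs (bxL x L)).Finite := fun x => (hfin x L).2
  have hm : ∀ x ∈ X, MeasurableSet (A x) := fun x hx => hmeas _ _ (hfinP x) (hdep x hx)
  let g : V d → Cfg d → ℝ := fun x => (A x).indicator (fun _ => (1 : ℝ))
  have hg01 : ∀ x ω, 0 ≤ g x ω ∧ g x ω ≤ 1 := by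
    intro x ω
    by_cases h : ω ∈ A x
    · simp [g, h]
    · simp [g, h]
  have hgm : ∀ x ∈ X, Measurable (g x) := fun x hx => measurable_const.indicator (hm x hx)
  have hgi : ∀ x ∈ X, Integrable (g x) (perc d p) := by
    intro x hx
    exact (integrable_const (1 : ℝ)).indicator (hm x hx)
  have hgE : ∀ x ∈ X, ∫ ω, g x ω ∂(perc d p) = q := by
    intro x hx
    rw [← hq x hx]
    exact integral_indicator_one (hm x hx)
  have hgg : ∀ x y ω, g x ω * g y ω = (A x ∩ A y).indicator (fun _ => (1 : ℝ)) ω := by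
    intro x y ω
    by_cases h1 : ω ∈ A x <;> by_cases h2 : ω ∈ A y <;> simp [g, h1, h2]
  have hggi : ∀ x ∈ X, ∀ y ∈ X, Integrable (fun ω => g x ω * g y ω) (perc d p) := by
    intro x hx y hy
    have : (fun ω => g x ω * g y ω) = (A x ∩ A y).indicator (fun _ => (1 : ℝ)) :=
      funext fun ω => hgg x y ω
    rw [this]
    exact (integrable_const (1 : ℝ)).indicator ((hm x hx).inter (hm y hy))
  have hggE : ∀ x ∈ X, ∀ y ∈ X, ∫ ω, g x ω * g y ω ∂(perc d p) = (perc d p).real (A x ∩ A y) := by
    intro x hx y hy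
    have : (fun ω => g x ω * g y ω) = (A x ∩ A y).indicator (fun _ => (1 : ℝ)) :=
      funext fun ω => hgg x y ω
    rw [this]
    exact integral_indicator_one ((hm x hx).inter (hm y hy))
  have hprodi : ∀ x ∈ X, ∀ y ∈ X,
      Integrable (fun ω => (g x ω - q) * (g y ω - q)) (perc d p) := by
    intro x hx y hy
    have he : (fun ω => (g x ω - q) * (g y ω - q)) =
        fun ω => g x ω * g y ω - q * g x ω - q * g y ω + q * q := by
      funext ω; ring
    rw [he]
    exact (((hggi x hx y hy).sub ((hgi x hx).const_mul q)).sub ((hgi y hy).const_mul q)).add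
      (integrable_const _)
  have hcov : ∀ x ∈ X, ∀ y ∈ X,
      ∫ ω, (g x ω - q) * (g y ω - q) ∂(perc d p) = (perc d p).real (A x ∩ A y) - q * q := by
    intro x hx y hy
    have he : (fun ω => (g x ω - q) * (g y ω - q)) =
        fun ω => g x ω * g y ω - q * g x ω - q * g y ω + q * q := by
      funext ω; ring
    rw [he]
    have hI2 : Integrable (fun ω => g x ω * g y ω - q * g x ω) (perc d p) :=
      (hggi x hx y hy).sub ((hgi x hx).const_mul q)
    have hI1 : Integrable (fun ω => g x ω * g y ω - q * g x ω - q * g y ω) (perc d p) :=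
      hI2.sub ((hgi y hy).const_mul q)
    rw [integral_add hI1 (integrable_const _), integral_sub hI2 ((hgi y hy).const_mul q),
      integral_sub (hggi x hx y hy) ((hgi x hx).const_mul q), hggE x hx y hy,
      integral_const_mul, integral_const_mul, hgE x hx, hgE y hy]
    simp
  -- covariance bound
  have hcovle : ∀ x ∈ X, ∀ y ∈ X,
      ∫ ω, (g x ω - q) * (g y ω - q) ∂(perc d p) ≤
        if (∀ i, |y i - x i| ≤ 2 * (L : ℤ)) then 1 else 0 := by
    intro x hx y hy
    rw [hcov x hx y hy]
    split_ifs with h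
    · have h1 : (perc d p).real (A x ∩ A y) ≤ 1 := measureReal_le_one
      nlinarith [mul_self_nonneg q]
    · have hdis : Disjoint (prs (bxL x L)) (prs (bxL y L)) := by
        rw [Set.disjoint_left]
        intro e he1 he2
        induction e using Sym2.ind with
        | _ a b =>
          have ha1 : a ∈ bxL x L := he1 a (Sym2.mem_mk_left a b)
          have ha2 : a ∈ bxL y L := he2 a (Sym2.mem_mk_left a b)
          apply h
          intro i
          have h1 := abs_le.mp (ha1 i)
          have h2 := abs_le.mp (ha2 i)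
          rw [abs_le]
          constructor <;> linarith [h1.1, h1.2, h2.1, h2.2]
      have hi := hindep (prs (bxL x L)) (prs (bxL y L)) (A x) (A y) (hfinP x) (hfinP y) hdis
        (hdep x hx) (hdep y hy)
      have : (perc d p).real (A x ∩ A y) = q * q := by
        rw [measureReal_def, hi, ENNReal.toReal_mul, ← measureReal_def, ← measureReal_def,
          hq x hx, hq y hy]
      linarith
  -- the sum
  let Z : Cfg d → ℝ := fun ω => ∑ x ∈ X, (g x ω - q)
  have hZ2 : ∀ ω, Z ω ^ 2 = ∑ x ∈ X, ∑ y ∈ X, (g x ω - q) * (g y ω - q) := by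
    intro ω
    show (∑ x ∈ X, (g x ω - q)) ^ 2 = _
    rw [sq, Finset.sum_mul_sum]
  have hZi : Integrable (fun ω => Z ω ^ 2) (perc d p) := by
    have : (fun ω => Z ω ^ 2) = fun ω => ∑ x ∈ X, ∑ y ∈ X, (g x ω - q) * (g y ω - q) :=
      funext hZ2
    rw [this]
    exact integrable_finsetSum _ fun x hx => integrable_finsetSum _ fun y hy => hprodi x hx y hy
  have hZE : ∫ ω, Z ω ^ 2 ∂(perc d p) ≤ X.card * (4 * L + 1) ^ d := by
    have : (fun ω => Z ω ^ 2) = fun ω => ∑ x ∈ X, ∑ y ∈ X, (g x ω - q) * (g y ω - q) :=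
      funext hZ2
    rw [this, integral_finsetSum _ (fun x hx => integrable_finsetSum _ fun y hy =>
      hprodi x hx y hy)]
    calc ∑ x ∈ X, ∫ ω, ∑ y ∈ X, (g x ω - q) * (g y ω - q) ∂(perc d p)
        ≤ ∑ x ∈ X, ((4 : ℝ) * L + 1) ^ d := by
          apply Finset.sum_le_sum
          intro x hx
          rw [integral_finsetSum _ (fun y hy => hprodi x hx y hy)]
          refine le_trans (Finset.sum_le_sum fun y hy => hcovle x hx y hy) ?_
          rw [← Finset.sum_filter, Finset.sum_const, nsmul_eq_mul, mul_one]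
          exact cheb_card L X x
      _ = X.card * (4 * L + 1) ^ d := by
          rw [Finset.sum_const, nsmul_eq_mul]
  have hXpos : (0 : ℝ) < X.card := by exact_mod_cast hX.card_pos
  have hZsum : ∀ ω, Z ω = ((X.filter fun x => ω ∈ A x).card : ℝ) - q * X.card := by
    intro ω
    show ∑ x ∈ X, (g x ω - q) = _
    rw [Finset.sum_sub_distrib, Finset.sum_const, nsmul_eq_mul, mul_comm (X.card : ℝ) q]
    congr 1
    rw [Finset.card_filter]
    push_cast
    apply Finset.sum_congr rfl
    intro x _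
    simp only [g, Set.indicator_apply]
  have hmk := mul_meas_ge_le_integral_of_nonneg (μ := perc d p)
    (f := fun ω => Z ω ^ 2) (ae_of_all _ fun ω => sq_nonneg (Z ω)) hZi
    ((δ * X.card) ^ 2)
  have hsub : (perc d p).real {ω | ((X.filter fun x => ω ∈ A x).card : ℝ) ≤ (q - δ) * X.card} ≤
      (perc d p).real {ω | (δ * X.card) ^ 2 ≤ Z ω ^ 2} := by
    refine measureReal_mono ?_ (measure_ne_top _ _)
    intro ω hω
    have hω' : ((X.filter fun x => ω ∈ A x).card : ℝ) ≤ (q - δ) * X.card := hω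
    show (δ * X.card) ^ 2 ≤ Z ω ^ 2
    have h1 : δ * X.card ≤ - Z ω := by
      rw [hZsum ω]
      linarith
    have h2 : 0 ≤ δ * X.card := by positivity
    nlinarith
  have hc : 0 < (δ * (X.card : ℝ)) ^ 2 := by positivity
  refine le_trans hsub ?_
  rw [le_div_iff₀ (by positivity)]
  have h3 : (δ * (X.card : ℝ)) ^ 2 * (perc d p).real {ω | (δ * X.card) ^ 2 ≤ Z ω ^ 2} ≤
      X.card * (4 * L + 1) ^ d := le_trans hmk hZE
  have h4 : (X.card : ℝ) * ((perc d p).real {ω | (δ * X.card) ^ 2 ≤ Z ω ^ 2} *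
      (δ ^ 2 * X.card)) ≤ X.card * (4 * L + 1) ^ d := by
    calc (X.card : ℝ) * ((perc d p).real {ω | (δ * X.card) ^ 2 ≤ Z ω ^ 2} *
      (δ ^ 2 * X.card)) = (δ * (X.card : ℝ)) ^ 2 *
        (perc d p).real {ω | (δ * X.card) ^ 2 ≤ Z ω ^ 2} := by ring
      _ ≤ _ := h3
  exact le_of_mul_le_mul_left h4 hXpos

end Pool.Agent.Helper56.WP
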