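import Pool.Agent.Helper56.WP.Statements

/-! # MP_65faa7_pr, module M_Geo -/

set_option autoImplicit false

open MeasureTheory Filter Topology

namespace Pool.Agent.Helper56.WP

theorem geo_mem_Bx {d n : ℕ} (x : V d) : x ∈ Bx d n ↔ ∀ i, 0 ≤ x i ∧ x i < n := by
  simp [Bx, Fintype.mem_piFinset]

theorem geo_mem_bd {d n : ℕ} (x : V d) :
    x ∈ bd d n ↔ (∀ i, 0 ≤ x i ∧ x i < n) ∧ ∃ i, x i = 0 ∨ x i = n - 1 := by
  unfold bd
  rw [Finset.mem_filter, geo_mem_Bx]

theorem geo_nn_le {d : ℕ} {z z' : V d} (h : nn z z') (j : Fin d) : |z j - z' j| ≤ 1 := by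
  unfold nn at h
  have : |z j - z' j| ≤ ∑ i, |z i - z' i| :=
    Finset.single_le_sum (f := fun i => |z i - z' i|) (fun i _ => abs_nonneg _) (Finset.mem_univ j)
  rw [h] at this
  exact this

theorem geo_exit_bd {d n : ℕ} {z z' : V d} (hz : z ∈ Bx d n) (hz' : z' ∉ Bx d n) (h : nn z z') :
    z ∈ bd d n := by
  rw [geo_mem_Bx] at hz hz'
  rw [geo_mem_bd]
  refine ⟨hz, ?_⟩
  push Not at hz'
  obtain ⟨j, hj⟩ := hz'
  have h1 := geo_nn_le h j
  rw [abs_le] at h1
  have h2 := hz j
  refine ⟨j, ?_⟩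
  by_cases h0 : 0 ≤ z' j
  · have := hj h0
    right; omega
  · left; omega

/-- connected to the boundary inside the box -/
def geoC {d : ℕ} (n : ℕ) (ω : Cfg d) (x : V d) : Prop :=
  ∃ z ∈ bd d n, (openG (Bx d n : Set (V d)) ω).Reachable x z

theorem geo_zero_bd {d n : ℕ} (hd : 1 ≤ d) (hn : 1 ≤ n) : (0 : V d) ∈ bd d n := by
  rw [geo_mem_bd]
  refine ⟨fun i => ?_, ⟨⟨0, hd⟩, Or.inl rfl⟩⟩
  simp only [Pi.zero_apply]
  omega

theorem geo_wired_of_open {d n : ℕ} {ω : Cfg d} {x y : V d}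
    (h : (openG (Bx d n : Set (V d)) ω).Reachable x y) : (wiredG n ω).Reachable x y := by
  refine h.mono ?_
  intro a b hab
  exact Or.inl hab

theorem geo_wired_bd {d n : ℕ} {ω : Cfg d} {x y : V d} (hx : x ∈ bd d n) (hy : y ∈ bd d n) :
    (wiredG n ω).Reachable x y := by
  by_cases h : x = y
  · subst h; exact SimpleGraph.Reachable.refl _
  · exact SimpleGraph.Adj.reachable (Or.inr ⟨h, hx, hy⟩)

theorem geo_walk_C {d n : ℕ} {ω : Cfg d} {x y : V d} (p : (wiredG n ω).Walk x y) :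
    geoC n ω x → geoC n ω y := by
  induction p with
  | nil => exact id
  | cons h p ih =>
    intro hx
    apply ih
    rcases h with h | h
    · obtain ⟨z, hz, hr⟩ := hx
      exact ⟨z, hz, (SimpleGraph.Adj.reachable h.symm).trans hr⟩
    · exact ⟨_, h.2.2, SimpleGraph.Reachable.refl _⟩

theorem geo_walk_open {d n : ℕ} {ω : Cfg d} {x y : V d} (p : (wiredG n ω).Walk x y) :
    ¬ geoC n ω x → (openG (Bx d n : Set (V d)) ω).Reachable x y := by
  induction p with
  | nil => intro _; exact SimpleGraph.Reachable.refl _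
  | cons h p ih =>
    intro hx
    rcases h with h | h
    · refine (SimpleGraph.Adj.reachable h).trans (ih ?_)
      rintro ⟨z, hz, hr⟩
      exact hx ⟨z, hz, (SimpleGraph.Adj.reachable h).trans hr⟩
    · exact absurd ⟨_, h.2.1, SimpleGraph.Reachable.refl _⟩ hx

open Classical in
theorem stGeo (hLoc : StLoc) : StGeo := by
  intro d n ω hd hn
  refine ⟨?_, ?_, ?_⟩
  · intro x hx
    have hx' := (geo_mem_Bx x).1 hx
    obtain ⟨-, -, hmono, hexit, -⟩ := hLoc d
    constructor
    · rintro ⟨z, hz, hr⟩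
      have hr' : (openG Set.univ ω).Reachable x z := hmono _ _ x z (Set.subset_univ _) hr
      obtain ⟨-, i, hi⟩ := (geo_mem_bd z).1 hz
      refine ⟨i, ?_⟩
      have := hx' i
      rcases hi with hi | hi
      · left
        refine ⟨z, ?_, hr'⟩
        omega
      · right
        refine ⟨z, ?_, hr'⟩
        omega
    · have key : ∀ y : V d, (∃ i, y i = 0 ∨ y i = n - 1) → (openG Set.univ ω).Reachable x y →
          ∃ z ∈ bd d n, (openG (Bx d n : Set (V d)) ω).Reachable x z := by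
        intro y hy hr
        have := hexit Set.univ (Bx d n : Set (V d)) ω x y (by exact_mod_cast hx) hr
        rw [Set.univ_inter] at this
        rcases this with ⟨hyB, hr'⟩ | ⟨z, z', hz, hz', hnn, hr'⟩
        · refine ⟨y, ?_, hr'⟩
          unfold bd
          rw [Finset.mem_filter]
          exact ⟨by exact_mod_cast hyB, hy⟩
        · exact ⟨z, geo_exit_bd (by exact_mod_cast hz) (by exact_mod_cast hz') hnn, hr'⟩
      rintro ⟨i, ⟨y, hy, hr⟩ | ⟨y, hy, hr⟩⟩
      · refine key y ⟨i, Or.inl ?_⟩ hr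
        have := hx' i
        omega
      · refine key y ⟨i, Or.inr ?_⟩ hr
        have := hx' i
        omega
  · have h0 : (0 : V d) ∈ bd d n := geo_zero_bd hd hn
    have h0B : (0 : V d) ∈ Bx d n := (Finset.mem_filter.1 h0).1
    refine le_trans ?_ (Finset.le_sup (f := wiredCard n ω) h0B)
    unfold W wiredCard
    apply Finset.card_le_card
    intro x hx
    rw [Finset.mem_filter] at hx ⊢
    obtain ⟨hxB, z, hz, hr⟩ := hx
    exact ⟨hxB, (geo_wired_bd h0 hz).trans (geo_wired_of_open hr).symm⟩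
  · have h0 : (0 : V d) ∈ bd d n := geo_zero_bd hd hn
    have h0B : (0 : V d) ∈ Bx d n := (Finset.mem_filter.1 h0).1
    obtain ⟨x, hx, hmax⟩ := Finset.exists_mem_eq_sup (Bx d n) ⟨_, h0B⟩ (wiredCard n ω)
    unfold wiredMax
    rw [hmax]
    by_cases hC : geoC n ω x
    · left
      unfold W wiredCard
      apply Finset.card_le_card
      intro y hy
      rw [Finset.mem_filter] at hy ⊢
      obtain ⟨hyB, ⟨p⟩⟩ := hy
      exact ⟨hyB, geo_walk_C p hC⟩
    · right
      refine ⟨x, hx, ?_⟩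
      unfold freeCard wiredCard
      apply Finset.card_le_card
      intro y hy
      rw [Finset.mem_filter] at hy ⊢
      obtain ⟨hyB, ⟨p⟩⟩ := hy
      exact ⟨hyB, geo_walk_open p hC⟩

end Pool.Agent.Helper56.WP
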