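import Pool.Agent.Helper56.WP.Statements

/-! # MP_65faa7_pr, module M_Ind -/

set_option autoImplicit false

open MeasureTheory Filter Topology

namespace Pool.Agent.Helper56.WP

theorem m_ind_pre {d : ℕ} (S : Finset (Sym2 (V d))) (A : Set (Cfg d))
    (hA : dep (S : Set (Sym2 (V d))) A) :
    A = (fun (ω : Cfg d) (i : S) => ω i) ⁻¹' ((fun (ω : Cfg d) (i : S) => ω i) '' A) := by
  ext ω
  constructor
  · intro h
    exact ⟨ω, h, rfl⟩
  · rintro ⟨ω', h', he⟩
    refine (hA ω' ω fun e heS => ?_).1 h'
    exact congrFun he ⟨e, heS⟩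

theorem m_ind_meas {d : ℕ} (S : Finset (Sym2 (V d))) (T : Set (S → Bool)) : MeasurableSet T :=
  T.toFinite.measurableSet

theorem m_ind_iIndep (d : ℕ) (p : unitInterval) :
    ProbabilityTheory.iIndepFun (fun (i : Sym2 (V d)) (ω : Cfg d) => ω i) (perc d p) :=
  ProbabilityTheory.iIndepFun_infinitePi (X := fun _ ω => ω) fun _ => measurable_id

theorem stInd : StInd := by
  intro d p
  have hmeas : ∀ (S : Set (Sym2 (V d))) (A : Set (Cfg d)), S.Finite → dep S A →
      MeasurableSet A := by
    intro S A hS hA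
    have hA' : dep (hS.toFinset : Set (Sym2 (V d))) A := by rwa [hS.coe_toFinset]
    rw [m_ind_pre hS.toFinset A hA']
    exact (m_ind_meas _ _).preimage (by fun_prop)
  refine ⟨hmeas, ?_, ?_, ?_⟩
  · intro S T A B hS hT hST hA hB
    have hA' : dep (hS.toFinset : Set (Sym2 (V d))) A := by rwa [hS.coe_toFinset]
    have hB' : dep (hT.toFinset : Set (Sym2 (V d))) B := by rwa [hT.coe_toFinset]
    have hdis : Disjoint hS.toFinset hT.toFinset := by
      rw [← Finset.disjoint_coe, hS.coe_toFinset, hT.coe_toFinset]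
      exact hST
    have key := (m_ind_iIndep d p).indepFun_finset hS.toFinset hT.toFinset hdis
      (fun i => measurable_pi_apply i)
    have h1 := key.measure_inter_preimage_eq_mul
      ((fun (ω : Cfg d) (i : hS.toFinset) => ω i) '' A)
      ((fun (ω : Cfg d) (i : hT.toFinset) => ω i) '' B) (m_ind_meas _ _) (m_ind_meas _ _)
    rw [← m_ind_pre hS.toFinset A hA', ← m_ind_pre hT.toFinset B hB'] at h1
    exact h1
  · intro e
    refine ⟨by fun_prop, ?_⟩
    exact Measure.map_infinitePi_infinitePi_of_inj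
      (P := fun _ : Sym2 (V d) => ProbabilityTheory.bernoulliMeasure true false p) e.injective
  · unfold perc
    infer_instance

end Pool.Agent.Helper56.WP
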