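import Pool.Agent.Helper56.WP.Statements

/-! # MP_65faa7_pr, module M_Lim -/

set_option autoImplicit false

open MeasureTheory Filter Topology

namespace Pool.Agent.Helper56.WP

theorem m_lim_nn {d : ℕ} {x y : V d} (h : nn x y) (i : Fin d) : |x i - y i| ≤ 1 := by
  unfold nn at h
  rw [← h]
  exact Finset.single_le_sum (f := fun i => |x i - y i|) (fun j _ => abs_nonneg _)
    (Finset.mem_univ i)

theorem stLim (hInd : StInd) (hLoc : StLoc) : StLim := by
  intro d _ p r
  obtain ⟨-, -, hmono, hexit, hexh⟩ := hLoc d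
  obtain ⟨-, -, -, hP⟩ := hInd d p
  refine ⟨?_, ?_, ?_⟩
  · have hU : (⋃ L : ℕ, armAt (bxL (0 : V d) L) 0 1 r 0) = arm d r := by
      ext ω
      simp only [Set.mem_iUnion]
      constructor
      · rintro ⟨L, y, hy, hr⟩
        refine ⟨y, by simpa using hy, ?_⟩
        exact hmono _ _ 0 y (Set.subset_univ _) hr
      · rintro ⟨y, hy, hr⟩
        obtain ⟨L, hL⟩ := hexh ω 0 y hr
        exact ⟨L, y, by simpa using hy, hL L le_rfl⟩
    rw [← hU]
    refine tendsto_measure_iUnion_atTop ?_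
    intro L L' hLL ω
    rintro ⟨y, hy, hr⟩
    refine ⟨y, hy, hmono _ _ 0 y ?_ hr⟩
    intro z hz i
    exact (hz i).trans (by exact_mod_cast hLL)
  · refine measure_mono ?_
    rintro ω ⟨y, hy, hr⟩
    have h0 : (0 : V d) ∈ {y : V d | y 0 ≤ r} := by simp
    rcases hexit Set.univ {y : V d | y 0 ≤ r} ω 0 y h0 hr with ⟨h1, -⟩ | ⟨z, z', hz, hz', hnn, hzr⟩
    · have : y 0 ≤ r := h1
      rw [hy] at this
      push_cast at this
      omega
    · refine ⟨z, ?_, ?_⟩
      · have h2 : z 0 ≤ r := hz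
        have h3 : ¬ (z' 0 ≤ r) := hz'
        have h4 := m_lim_nn hnn 0
        rw [abs_le] at h4
        omega
      · exact hmono _ _ 0 z (Set.subset_univ _) hzr
  · have : arm d 0 = Set.univ := by
      refine Set.eq_univ_of_forall fun ω => ⟨0, by simp, SimpleGraph.Reachable.refl _⟩
    rw [this, measure_univ]

end Pool.Agent.Helper56.WP
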