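import Pool.Agent.Helper56.WP.Statements

/-! # MP_65faa7_pr, module M_Loc -/

set_option autoImplicit false

open MeasureTheory Filter Topology

namespace Pool.Agent.Helper56.WP

theorem m_loc_bxL_finite {d : ℕ} (x : V d) (L : ℕ) : (bxL x L).Finite := by
  have h : (Set.pi Set.univ fun i : Fin d => Set.Icc (x i - L) (x i + L)).Finite :=
    Set.Finite.pi fun i => Set.finite_Icc _ _
  refine h.subset ?_
  intro y hy i _
  have := abs_le.mp (hy i)
  exact ⟨by linarith [this.1], by linarith [this.2]⟩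

theorem m_loc_prs_finite {d : ℕ} {B : Set (V d)} (hB : B.Finite) : (prs B).Finite := by
  refine ((hB.prod hB).image fun q : V d × V d => s(q.1, q.2)).subset ?_
  intro e he
  induction e using Sym2.ind with
  | _ a b =>
    refine ⟨(a, b), ⟨he a (by simp), he b (by simp)⟩, rfl⟩

theorem m_loc_openG_congr {d : ℕ} {B : Set (V d)} {ω ω' : Cfg d}
    (h : ∀ e ∈ prs B, ω e = ω' e) : openG B ω = openG B ω' := by
  ext a b
  constructor
  · rintro ⟨h1, h2, h3, h4, h5⟩
    refine ⟨h1, h2, h3, h4, ?_⟩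
    rw [← h _ (by
      intro v hv
      rcases Sym2.mem_iff.mp hv with rfl | rfl <;> assumption)]
    exact h5
  · rintro ⟨h1, h2, h3, h4, h5⟩
    refine ⟨h1, h2, h3, h4, ?_⟩
    rw [h _ (by
      intro v hv
      rcases Sym2.mem_iff.mp hv with rfl | rfl <;> assumption)]
    exact h5

theorem m_loc_openG_mono {d : ℕ} {B B' : Set (V d)} (h : B ⊆ B') (ω : Cfg d) :
    openG B ω ≤ openG B' ω := by
  intro a b hab
  exact ⟨hab.1, hab.2.1, h hab.2.2.1, h hab.2.2.2.1, hab.2.2.2.2⟩

theorem m_loc_bxL_mono {d : ℕ} (x : V d) {L L' : ℕ} (h : L ≤ L') : bxL x L ⊆ bxL x L' := by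
  intro y hy i
  exact (hy i).trans (by exact_mod_cast h)

theorem m_loc_mem_bxL {d : ℕ} (x y : V d) : ∃ N : ℕ, y ∈ bxL x N := by
  refine ⟨∑ i, (y i - x i).natAbs, ?_⟩
  intro i
  have h1 : (y i - x i).natAbs ≤ ∑ i, (y i - x i).natAbs :=
    Finset.single_le_sum (f := fun i => (y i - x i).natAbs) (fun _ _ => Nat.zero_le _)
      (Finset.mem_univ i)
  rw [Int.abs_eq_natAbs]
  exact_mod_cast h1

theorem stLoc : StLoc := by
  intro d
  refine ⟨?_, ?_, ?_, ?_, ?_⟩
  · intro x L
    exact ⟨m_loc_bxL_finite x L, m_loc_prs_finite (m_loc_bxL_finite x L)⟩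
  · intro B x y ω ω' h
    unfold conn
    show (openG B ω).Reachable x y ↔ (openG B ω').Reachable x y
    rw [m_loc_openG_congr h]
  · intro B B' x y h ω hω
    exact SimpleGraph.Reachable.mono (m_loc_openG_mono h ω) hω
  · intro U B ω x y hx hxy
    rw [SimpleGraph.reachable_iff_reflTransGen] at hxy
    induction hxy with
    | refl => exact Or.inl ⟨hx, SimpleGraph.Reachable.refl _⟩
    | @tail b c hb hbc ih =>
      rcases ih with ⟨hbB, hr⟩ | h
      · by_cases hc : c ∈ B
        · refine Or.inl ⟨hc, hr.trans (SimpleGraph.Adj.reachable ?_)⟩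
          exact ⟨hbc.1, hbc.2.1, ⟨hbc.2.2.1, hbB⟩, ⟨hbc.2.2.2.1, hc⟩, hbc.2.2.2.2⟩
        · exact Or.inr ⟨b, c, hbB, hc, hbc.2.1, hr⟩
      · exact Or.inr h
  · intro ω x y hxy
    rw [SimpleGraph.reachable_iff_reflTransGen] at hxy
    induction hxy with
    | refl => exact ⟨0, fun L' _ => SimpleGraph.Reachable.refl _⟩
    | @tail b c hb hbc ih =>
      obtain ⟨L, hL⟩ := ih
      obtain ⟨N, hN⟩ := m_loc_mem_bxL x b
      obtain ⟨M, hM⟩ := m_loc_mem_bxL x c
      refine ⟨max L (max N M), fun L' hL' => ?_⟩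
      refine (hL L' (le_trans (le_max_left _ _) hL')).trans (SimpleGraph.Adj.reachable ?_)
      refine ⟨hbc.1, hbc.2.1, ?_, ?_, hbc.2.2.2.2⟩
      · exact m_loc_bxL_mono x
          (le_trans (le_trans (le_max_left _ _) (le_max_right _ _)) hL') hN
      · exact m_loc_bxL_mono x
          (le_trans (le_trans (le_max_right _ _) (le_max_right _ _)) hL') hM

end Pool.Agent.Helper56.WP
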