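import Pool.Agent.Helper56.WP.Statements

/-! # MP_65faa7_pr, module M_Low -/

set_option autoImplicit false

open MeasureTheory Filter Topology

namespace Pool.Agent.Helper56.WP

/-- slices of the box near its boundary -/
private noncomputable def mlowX (d n R : ℕ) (σ : Fin d × Bool × Fin R) : Finset (V d) :=
  Fintype.piFinset fun j =>
    if j = σ.1 then {if σ.2.1 then (n : ℤ) - 1 - (σ.2.2 : ℕ) else ((σ.2.2 : ℕ) : ℤ)}
    else Finset.Icc (R : ℤ) ((n : ℤ) - 1 - R)

private theorem mlowX_mem {d n R : ℕ} {σ : Fin d × Bool × Fin R} {x : V d} :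
    x ∈ mlowX d n R σ ↔
      x σ.1 = (if σ.2.1 then (n : ℤ) - 1 - (σ.2.2 : ℕ) else ((σ.2.2 : ℕ) : ℤ)) ∧
      ∀ j, j ≠ σ.1 → (R : ℤ) ≤ x j ∧ x j ≤ (n : ℤ) - 1 - R := by
  unfold mlowX
  rw [Fintype.mem_piFinset]
  constructor
  · intro h
    refine ⟨?_, fun j hj => ?_⟩
    · have := h σ.1
      rw [if_pos rfl, Finset.mem_singleton] at this
      exact this
    · have := h j
      rw [if_neg hj, Finset.mem_Icc] at this
      exact this
  · rintro ⟨h1, h2⟩ j
    by_cases hj : j = σ.1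
    · subst hj
      rw [if_pos rfl, Finset.mem_singleton]
      exact h1
    · rw [if_neg hj, Finset.mem_Icc]
      exact h2 j hj

private theorem mlowX_card {d n R : ℕ} (hn : 2 * R ≤ n) (σ : Fin d × Bool × Fin R) :
    (mlowX d n R σ).card = (n - 2 * R) ^ (d - 1) := by
  unfold mlowX
  rw [Fintype.card_piFinset, ← Finset.mul_prod_erase Finset.univ _ (Finset.mem_univ σ.1)]
  rw [if_pos rfl, Finset.card_singleton, one_mul]
  have h1 : ∀ j ∈ Finset.univ.erase σ.1,
      (if j = σ.1 then ({if σ.2.1 then (n : ℤ) - 1 - (σ.2.2 : ℕ) else ((σ.2.2 : ℕ) : ℤ)} : Finset ℤ)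
        else Finset.Icc (R : ℤ) ((n : ℤ) - 1 - R)).card = n - 2 * R := by
    intro j hj
    rw [if_neg (Finset.ne_of_mem_erase hj), Int.card_Icc]
    omega
  rw [Finset.prod_congr rfl h1, Finset.prod_const, Finset.card_erase_of_mem (Finset.mem_univ _),
    Finset.card_univ, Fintype.card_fin]

private theorem mlowX_disj {d n R : ℕ} (hn : 2 * R + 1 ≤ n) {σ τ : Fin d × Bool × Fin R}
    (h : σ ≠ τ) : Disjoint (mlowX d n R σ) (mlowX d n R τ) := by
  rw [Finset.disjoint_left]
  intro x hx hy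
  rw [mlowX_mem] at hx hy
  obtain ⟨i, b, r⟩ := σ
  obtain ⟨i', b', r'⟩ := τ
  simp only at hx hy
  have hr := r.2
  have hr' := r'.2
  by_cases hi : i = i'
  · subst hi
    have h1 := hx.1
    rw [hy.1] at h1
    have h2 : b = b' ∧ r = r' := by
      cases b <;> cases b' <;> simp at h1 ⊢
      · exact Fin.ext (by omega)
      · omega
      · omega
      · exact Fin.ext (by omega)
    exact h (by rw [h2.1, h2.2])
  · have h1 := hy.2 i hi
    rw [hx.1] at h1
    cases b <;> simp at h1 <;> omega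

private theorem mlowX_sub {d n R : ℕ} (hn : 2 * R + 1 ≤ n) (σ : Fin d × Bool × Fin R) :
    mlowX d n R σ ⊆ Bx d n := by
  intro x hx
  rw [mlowX_mem] at hx
  obtain ⟨i, b, r⟩ := σ
  have hr := r.2
  simp only at hx
  unfold Bx
  rw [Fintype.mem_piFinset]
  intro j
  rw [Finset.mem_Ico]
  by_cases hj : j = i
  · subst hj
    rw [hx.1]
    cases b <;> simp <;> omega
  · have := hx.2 j hj
    omega

/-- the sign of a slice -/
private def mlowS (b : Bool) : ℤ := if b then 1 else -1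

open Classical in
private theorem mlow_count (hLoc : StLoc) (hGeo : StGeo) {d n R L : ℕ} (hd : 1 ≤ d)
    (hn : 2 * R + 1 ≤ n) (ω : Cfg d) :
    ∑ σ : Fin d × Bool × Fin R,
      ((mlowX d n R σ).filter fun x => ω ∈ armAt (bxL x L) σ.1 (mlowS σ.2.1) σ.2.2 x).card ≤
      W d n ω := by
  rw [← Finset.card_biUnion]
  · unfold W
    refine Finset.card_le_card ?_
    intro x hx
    rw [Finset.mem_biUnion] at hx
    obtain ⟨σ, -, hx⟩ := hx
    rw [Finset.mem_filter] at hx ⊢
    have hxB : x ∈ Bx d n := mlowX_sub hn σ hx.1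
    refine ⟨hxB, ?_⟩
    rw [(hGeo d n ω hd (by omega)).1 x hxB]
    refine ⟨σ.1, ?_⟩
    have hmem := (mlowX_mem.1 hx.1).1
    have harm : ω ∈ armAt Set.univ σ.1 (mlowS σ.2.1) σ.2.2 x := by
      obtain ⟨y, hy1, hy2⟩ := hx.2
      exact ⟨y, hy1, (hLoc d).2.2.1 _ _ x y (Set.subset_univ _) hy2⟩
    obtain ⟨i, b, r⟩ := σ
    cases b
    · left
      simp only [mlowS, Bool.false_eq_true, if_false] at harm hmem ⊢
      rw [hmem]
      simpa using harm
    · right
      simp only [mlowS, if_true] at harm hmem ⊢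
      rw [hmem]
      have : ((n : ℤ) - 1 - ((n : ℤ) - 1 - (r : ℕ))).toNat = (r : ℕ) := by omega
      rw [this]
      exact harm
  · intro σ _ τ _ hne
    exact Finset.disjoint_of_subset_left (Finset.filter_subset _ _)
      (Finset.disjoint_of_subset_right (Finset.filter_subset _ _) (mlowX_disj hn hne))

/-- choice of the parameters -/
private theorem mlow_choose (hInd : StInd) (hLim : StLim) {d : ℕ} [NeZero d] {p : unitInterval}
    {u : ℝ} (hu : ENNReal.ofReal u < aw d p) :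
    ∃ R L : ℕ, u < 2 * d * ∑ r : Fin R, (perc d p).real (armAt (bxL 0 L) 0 1 (r : ℕ) 0) := by
  have hP : IsProbabilityMeasure (perc d p) := (hInd d p).2.2.2
  -- finite partial sum
  have h1 : ∃ R : ℕ, ENNReal.ofReal u < 2 * d * ∑ r ∈ Finset.range R, perc d p (arm d r) := by
    unfold aw at hu
    rw [ENNReal.tsum_eq_iSup_nat, ENNReal.mul_iSup] at hu
    obtain ⟨R, hR⟩ := lt_iSup_iff.1 hu
    exact ⟨R, hR⟩
  obtain ⟨R, hR⟩ := h1
  -- finite box
  have h2 : Tendsto (fun L : ℕ => (2 * d : ENNReal) *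
      ∑ r ∈ Finset.range R, perc d p (armAt (bxL 0 L) 0 1 r 0)) atTop
      (𝓝 (2 * d * ∑ r ∈ Finset.range R, perc d p (arm d r))) := by
    refine ENNReal.Tendsto.const_mul (tendsto_finsetSum _ fun r _ => (hLim d p r).1) ?_
    right
    exact ENNReal.mul_ne_top (by norm_num) (ENNReal.natCast_ne_top d)
  obtain ⟨L, hL⟩ := (h2.eventually (lt_mem_nhds hR)).exists
  refine ⟨R, L, ?_⟩
  have h3 : (2 * d : ENNReal) * ∑ r ∈ Finset.range R, perc d p (armAt (bxL 0 L) 0 1 r 0) =
      ENNReal.ofReal (2 * d * ∑ r : Fin R, (perc d p).real (armAt (bxL 0 L) 0 1 (r : ℕ) 0)) := by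
    rw [ENNReal.ofReal_mul (by positivity), ENNReal.ofReal_mul (by norm_num),
      ENNReal.ofReal_natCast, ENNReal.ofReal_ofNat]
    congr 1
    rw [Finset.sum_range, ENNReal.ofReal_sum_of_nonneg (fun _ _ => measureReal_nonneg)]
    exact Finset.sum_congr rfl fun r _ => (ofReal_measureReal (measure_ne_top _ _)).symm
  rw [h3] at hL
  exact ENNReal.ofReal_lt_ofReal_iff'.1 hL |>.1

open Classical in
theorem stLow (hInd : StInd) (hLoc : StLoc) (hSym : StSym) (hLim : StLim) (hCheb : StCheb)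
    (hGeo : StGeo) : StLow := by
  intro d _ p u0 hd hu0
  have hP : IsProbabilityMeasure (perc d p) := (hInd d p).2.2.2
  -- reduce to nonnegative `u`
  set u : ℝ := max u0 0 with hudef
  have hu : ENNReal.ofReal u < aw d p := by
    rw [hudef]
    rcases le_total u0 0 with h | h
    · rw [max_eq_right h]
      rw [ENNReal.ofReal_of_nonpos h] at hu0
      simpa using hu0
    · rw [max_eq_left h]; exact hu0
  have hu' : 0 ≤ u := le_max_right _ _
  obtain ⟨R, L, hRL⟩ := mlow_choose hInd hLim hu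
  set q : ℕ → ℝ := fun r => (perc d p).real (armAt (bxL 0 L) 0 1 r 0) with hq
  set v : ℝ := 2 * d * ∑ r : Fin R, q r with hv
  have hRL' : u < v := hRL
  set κ : ℝ := (v - u) / 2 with hκ
  have hκ0 : 0 < κ := by rw [hκ]; linarith
  set δ : ℝ := κ / (2 * d * R + 1) with hδ
  have hden : (0 : ℝ) < 2 * d * R + 1 := by positivity
  have hδ0 : 0 < δ := div_pos hκ0 hden
  have hδκ : 2 * d * R * δ ≤ κ := by
    rw [hδ, mul_div_assoc', div_le_iff₀ hden]
    nlinarith [hκ0]
  -- the events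
  set bad : ℕ → (Fin d × Bool × Fin R) → Set (Cfg d) := fun n σ =>
    {ω | (((mlowX d n R σ).filter fun x =>
      ω ∈ armAt (bxL x L) σ.1 (mlowS σ.2.1) σ.2.2 x).card : ℝ) ≤
      (q σ.2.2 - δ) * (mlowX d n R σ).card} with hbad
  have hbadP : ∀ n, 2 * R + 1 ≤ n → ∀ σ, (perc d p) (bad n σ) ≤
      ENNReal.ofReal ((4 * L + 1) ^ d / (δ ^ 2 * ((n - 2 * R : ℕ) : ℝ) ^ (d - 1))) := by
    intro n hn σ
    have hcard := mlowX_card (d := d) (n := n) (R := R) (by omega) σ
    have h := hCheb d p L (mlowX d n R σ)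
      (fun x => armAt (bxL x L) σ.1 (mlowS σ.2.1) σ.2.2 x) (q σ.2.2) δ ?_ ?_ hδ0 ?_
    · rw [hcard] at h
      rw [← ofReal_measureReal (measure_ne_top (perc d p) (bad n σ))]
      refine ENNReal.ofReal_le_ofReal ?_
      refine le_trans (le_of_eq ?_) (h.trans (le_of_eq ?_))
      · rw [hbad]
        simp only
        rw [hcard]
      · push_cast
        rfl
    · intro x _ ω ω' hωω'
      constructor
      · rintro ⟨y, hy1, hy2⟩
        exact ⟨y, hy1, ((hLoc d).2.1 _ x y ω ω' hωω').1 hy2⟩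
      · rintro ⟨y, hy1, hy2⟩
        exact ⟨y, hy1, ((hLoc d).2.1 _ x y ω ω' hωω').2 hy2⟩
    · intro x _
      have hs : mlowS σ.2.1 = 1 ∨ mlowS σ.2.1 = -1 := by
        unfold mlowS; split_ifs <;> simp
      have := (hSym d p x σ.1 (mlowS σ.2.1) σ.2.2 L hs).1
      rw [hq]
      simp only [measureReal_def]
      rw [this]
    · rw [← Finset.card_pos, hcard]
      exact pow_pos (by omega) _
  -- inclusion
  have hlim1 : Tendsto (fun n : ℕ => (1 - 2 * (R : ℝ) * (n : ℝ)⁻¹) ^ (d - 1) * (v - κ)) atTop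
      (𝓝 ((1 - 2 * (R : ℝ) * 0) ^ (d - 1) * (v - κ))) := by
    refine Tendsto.mul_const _ (Tendsto.pow (Tendsto.sub tendsto_const_nhds
      (Tendsto.const_mul _ ?_)) _)
    exact tendsto_inv_atTop_zero.comp tendsto_natCast_atTop_atTop
  have hvκ : u < v - κ := by rw [hκ]; linarith
  have hev1 : ∀ᶠ n : ℕ in atTop, u < (1 - 2 * (R : ℝ) * (n : ℝ)⁻¹) ^ (d - 1) * (v - κ) := by
    refine hlim1.eventually (lt_mem_nhds ?_)
    simpa using hvκ
  have hincl : ∀ᶠ n : ℕ in atTop,
      {ω : Cfg d | (W d n ω : ℝ) ≤ u0 * (n : ℝ) ^ (d - 1)} ⊆ ⋃ σ, bad n σ := by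
    filter_upwards [hev1, eventually_ge_atTop (2 * R + 1)] with n hn1 hn2 ω hω
    by_contra hcon
    rw [Set.mem_iUnion, not_exists] at hcon
    have hn0 : (0 : ℝ) < n := by
      have : 0 < n := by omega
      exact_mod_cast this
    have hcast : ((n - 2 * R : ℕ) : ℝ) = (n : ℝ) - 2 * R := by
      rw [Nat.cast_sub (by omega)]; push_cast; ring
    have h1 : ∑ σ : Fin d × Bool × Fin R, (q σ.2.2 - δ) * ((n - 2 * R : ℕ) : ℝ) ^ (d - 1) ≤
        (W d n ω : ℝ) := by
      refine le_trans (Finset.sum_le_sum (g := fun σ => (((mlowX d n R σ).filter fun x =>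
        ω ∈ armAt (bxL x L) σ.1 (mlowS σ.2.1) σ.2.2 x).card : ℝ)) ?_) ?_
      · intro σ _
        have h2 := hcon σ
        rw [hbad] at h2
        simp only [Set.mem_ofPred_eq, not_le] at h2
        rw [mlowX_card (by omega) σ] at h2
        push_cast at h2
        exact h2.le
      · have h3 := mlow_count hLoc hGeo (d := d) (n := n) (R := R) (L := L) (by omega) hn2 ω
        exact_mod_cast h3
    have h4 : ∑ σ : Fin d × Bool × Fin R, (q σ.2.2 - δ) * ((n - 2 * R : ℕ) : ℝ) ^ (d - 1) =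
        (v - 2 * d * R * δ) * ((n - 2 * R : ℕ) : ℝ) ^ (d - 1) := by
      rw [← Finset.sum_mul]
      congr 1
      rw [Fintype.sum_prod_type]
      simp only [Fintype.sum_prod_type, Finset.sum_const, Finset.card_univ, Fintype.card_fin,
        Fintype.card_bool, Fintype.card_prod, nsmul_eq_mul, Finset.sum_sub_distrib]
      rw [hv]
      push_cast
      ring
    have h5 : (v - κ) * ((n - 2 * R : ℕ) : ℝ) ^ (d - 1) ≤ (W d n ω : ℝ) := by
      refine le_trans ?_ (h4 ▸ h1)
      refine mul_le_mul_of_nonneg_right ?_ (by positivity)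
      linarith
    have h6 : ((1 - 2 * (R : ℝ) * (n : ℝ)⁻¹) ^ (d - 1)) * (n : ℝ) ^ (d - 1) =
        ((n - 2 * R : ℕ) : ℝ) ^ (d - 1) := by
      rw [← mul_pow, hcast]
      congr 1
      field_simp
    have h7 : u * (n : ℝ) ^ (d - 1) < (v - κ) * ((n - 2 * R : ℕ) : ℝ) ^ (d - 1) := by
      rw [← h6]
      have := mul_lt_mul_of_pos_right hn1 (pow_pos hn0 (d - 1))
      calc u * (n : ℝ) ^ (d - 1) < _ := this
        _ = _ := by ring
    have h8 : (W d n ω : ℝ) ≤ u0 * (n : ℝ) ^ (d - 1) := hω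
    have h9 : u0 * (n : ℝ) ^ (d - 1) ≤ u * (n : ℝ) ^ (d - 1) :=
      mul_le_mul_of_nonneg_right (le_max_left _ _) (by positivity)
    linarith
  -- the bound
  have hbound : ∀ᶠ n : ℕ in atTop,
      perc d p {ω | (W d n ω : ℝ) ≤ u0 * (n : ℝ) ^ (d - 1)} ≤
        (Fintype.card (Fin d × Bool × Fin R) : ENNReal) *
          ENNReal.ofReal ((4 * L + 1) ^ d / (δ ^ 2 * ((n - 2 * R : ℕ) : ℝ) ^ (d - 1))) := by
    filter_upwards [hincl, eventually_ge_atTop (2 * R + 1)] with n hn1 hn2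
    refine (measure_mono hn1).trans ((measure_iUnion_fintype_le _ _).trans ?_)
    refine (Finset.sum_le_sum fun σ _ => hbadP n hn2 σ).trans ?_
    rw [Finset.sum_const, Finset.card_univ, nsmul_eq_mul]
  have hlim2 : Tendsto (fun n : ℕ => (Fintype.card (Fin d × Bool × Fin R) : ENNReal) *
      ENNReal.ofReal ((4 * L + 1) ^ d / (δ ^ 2 * ((n - 2 * R : ℕ) : ℝ) ^ (d - 1)))) atTop
      (𝓝 0) := by
    have h1 : Tendsto (fun n : ℕ => (4 * (L : ℝ) + 1) ^ d /
        (δ ^ 2 * ((n - 2 * R : ℕ) : ℝ) ^ (d - 1))) atTop (𝓝 0) := by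
      refine Tendsto.const_div_atTop (Tendsto.const_mul_atTop (by positivity) ?_) _
      refine (tendsto_pow_atTop (by omega)).comp (tendsto_natCast_atTop_atTop.comp ?_)
      exact tendsto_sub_atTop_nat (2 * R)
    have h2 := ENNReal.tendsto_ofReal h1
    rw [ENNReal.ofReal_zero] at h2
    have h3 := ENNReal.Tendsto.const_mul (a := (Fintype.card (Fin d × Bool × Fin R) : ENNReal)) h2
      (Or.inr (ENNReal.natCast_ne_top _))
    rwa [mul_zero] at h3
  exact tendsto_of_tendsto_of_tendsto_of_le_of_le' tendsto_const_nhds hlim2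
    (Eventually.of_forall fun _ => zero_le) hbound

end Pool.Agent.Helper56.WP
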