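import Pool.Agent.Helper56.WP.Statements

/-! # MP_65faa7_pr, module M_Mean -/

set_option autoImplicit false

open MeasureTheory Filter Topology

namespace Pool.Agent.Helper56.WP

namespace Mean

theorem Bx_sub {d n : ℕ} : (Bx d n : Set (V d)) ⊆ bxL 0 n := by
  intro y hy i
  have h := (Fintype.mem_piFinset.mp (Finset.mem_coe.mp hy)) i
  rw [Finset.mem_Ico] at h
  simp only [Pi.zero_apply, sub_zero]
  rw [abs_of_nonneg h.1]
  exact h.2.le

/-- `x` is connected to the boundary inside the box -/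
def ev (d n : ℕ) (x : V d) : Set (Cfg d) :=
  {ω | ∃ z ∈ bd d n, (openG (Bx d n : Set (V d)) ω).Reachable x z}

theorem ev_meas (hInd : StInd) (hLoc : StLoc) (d n : ℕ) (p : unitInterval) (x : V d) :
    MeasurableSet (ev d n x) := by
  have h := hLoc d
  refine (hInd d p).1 (prs (bxL 0 n)) (ev d n x) (h.1 0 n).2 ?_
  intro ω ω' hω
  have hdep := fun z : V d => h.2.1 (Bx d n : Set (V d)) x z ω ω' (by
    intro e he
    exact hω e (fun v hv => Bx_sub (he v hv)))
  constructor
  · rintro ⟨z, hz, hr⟩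
    exact ⟨z, hz, (hdep z).mp hr⟩
  · rintro ⟨z, hz, hr⟩
    exact ⟨z, hz, (hdep z).mpr hr⟩

theorem W_eq (d n : ℕ) (ω : Cfg d) :
    (W d n ω : ENNReal) = ∑ x ∈ Bx d n, (ev d n x).indicator 1 ω := by
  classical
  unfold W
  rw [Finset.card_filter]
  push_cast
  refine Finset.sum_congr rfl fun x _ => ?_
  by_cases h : ω ∈ ev d n x
  · rw [Set.indicator_of_mem h, Pi.one_apply]
    exact if_pos h
  · rw [Set.indicator_of_notMem h]
    exact if_neg h

theorem sum_inj_le (f : ℕ → ENNReal) (s : Finset ℤ) (h : ℤ → ℕ) (hh : Set.InjOn h s) :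
    ∑ b ∈ s, f (h b) ≤ ∑' r, f r := by
  rw [← Finset.sum_image (f := f) (g := h) (by intro a ha b hb; exact hh ha hb)]
  exact ENNReal.sum_le_tsum _

end Mean

open Mean in
theorem stMean (hInd : StInd) (hLoc : StLoc) (hSym : StSym) (hGeo : StGeo) : StMean := by
  intro d _ p n hn
  have hd : 1 ≤ d := Nat.one_le_iff_ne_zero.mpr (NeZero.ne d)
  have hW : ∫⁻ ω, (W d n ω : ENNReal) ∂(perc d p) = ∑ x ∈ Bx d n, perc d p (ev d n x) := by
    simp_rw [W_eq]
    rw [lintegral_finsetSum _ (fun x _ => measurable_one.indicator (ev_meas hInd hLoc d n p x))]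
    refine Finset.sum_congr rfl fun x _ => ?_
    exact lintegral_indicator_one (ev_meas hInd hLoc d n p x)
  rw [hW]
  have hx : ∀ x ∈ Bx d n, perc d p (ev d n x) ≤
      ∑ i : Fin d, (perc d p (arm d (x i).toNat) +
        perc d p (arm d ((n : ℤ) - 1 - x i).toNat)) := by
    intro x hxB
    have hsub : ev d n x ⊆ ⋃ i : Fin d, (armAt Set.univ i (-1) (x i).toNat x ∪
        armAt Set.univ i 1 ((n : ℤ) - 1 - x i).toNat x) := by
      intro ω hω
      obtain ⟨i, hi⟩ := ((hGeo d n ω hd hn).1 x hxB).mp hω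
      exact Set.mem_iUnion.mpr ⟨i, hi⟩
    refine (measure_mono hsub).trans ((measure_iUnion_fintype_le _ _).trans ?_)
    refine Finset.sum_le_sum fun i _ => (measure_union_le _ _).trans ?_
    rw [(hSym d p x i (-1) (x i).toNat 0 (Or.inr rfl)).2.1,
      (hSym d p x i 1 ((n : ℤ) - 1 - x i).toNat 0 (Or.inl rfl)).2.1]
  refine (Finset.sum_le_sum hx).trans ?_
  rw [Finset.sum_comm]
  have hi : ∀ i : Fin d, ∑ x ∈ Bx d n, (perc d p (arm d (x i).toNat) +
        perc d p (arm d ((n : ℤ) - 1 - x i).toNat)) ≤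
      (n : ENNReal) ^ (d - 1) * (2 * ∑' r, perc d p (arm d r)) := by
    intro i
    unfold Bx
    rw [Fintype.sum_piFinset_apply (fun b : ℤ => perc d p (arm d b.toNat) +
      perc d p (arm d ((n : ℤ) - 1 - b).toNat))]
    rw [Int.card_Ico, Fintype.card_fin, nsmul_eq_mul]
    simp only [sub_zero, Int.toNat_natCast, Nat.cast_pow]
    refine mul_le_mul_right ?_ _
    rw [Finset.sum_add_distrib, two_mul]
    refine add_le_add (sum_inj_le (fun r => perc d p (arm d r)) _ _ ?_)
      (sum_inj_le (fun r => perc d p (arm d r)) _ (fun b => ((n : ℤ) - 1 - b).toNat) ?_)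
    · intro a ha b hb h
      simp only [Finset.coe_Ico, Set.mem_Ico] at ha hb
      omega
    · intro a ha b hb h
      simp only [Finset.coe_Ico, Set.mem_Ico] at ha hb
      simp only at h
      omega
  refine (Finset.sum_le_sum fun i _ => hi i).trans ?_
  rw [Finset.sum_const, Finset.card_univ, Fintype.card_fin, nsmul_eq_mul]
  unfold aw
  refine le_of_eq ?_
  ring

end Pool.Agent.Helper56.WP
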