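import Pool.Agent.Helper56.WP.Statements

/-! # MP_65faa7_pr, module M_Pairs -/

set_option autoImplicit false

open MeasureTheory Filter Topology

namespace Pool.Agent.Helper56.WP

/-- at most `(2m+1)^d` points at distance at most `m` -/
private theorem pairs_count {d : ℕ} (x : V d) (m : ℕ) (C : Finset (V d)) :
    (C.filter fun y => ¬ m < ds x y).card ≤ (2 * m + 1) ^ d := by
  classical
  have hsub : (C.filter fun y => ¬ m < ds x y) ⊆
      Fintype.piFinset fun j => Finset.Icc (x j - m) (x j + m) := by
    intro y hy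
    rw [Finset.mem_filter, not_lt] at hy
    rw [Fintype.mem_piFinset]
    intro j
    have h1 : (x j - y j).natAbs ≤ ds x y :=
      Finset.le_sup (f := fun i : Fin d => (x i - y i).natAbs) (Finset.mem_univ j)
    rw [Finset.mem_Icc]
    omega
  refine (Finset.card_le_card hsub).trans ?_
  rw [Fintype.card_piFinset]
  have h1 : ∀ j ∈ (Finset.univ : Finset (Fin d)),
      (Finset.Icc (x j - m) (x j + m)).card = 2 * m + 1 := by
    intro j _
    rw [Int.card_Icc]
    omega
  rw [Finset.prod_congr rfl h1, Finset.prod_const, Finset.card_univ, Fintype.card_fin]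

private theorem pairs_meas (hInd : StInd) (hLoc : StLoc) (d : ℕ) (x y : V d) :
    MeasurableSet (conn Set.univ x y : Set (Cfg d)) := by
  obtain ⟨hfin, hdep, hmono, -, hex⟩ := hLoc d
  have h1 : (conn Set.univ x y : Set (Cfg d)) = ⋃ L : ℕ, conn (bxL x L) x y := by
    apply Set.Subset.antisymm
    · intro ω hω
      obtain ⟨L, hL⟩ := hex ω x y hω
      exact Set.mem_iUnion.2 ⟨L, hL L le_rfl⟩
    · apply Set.iUnion_subset
      intro L
      exact hmono _ _ _ _ (Set.subset_univ _)
  rw [h1]
  apply MeasurableSet.iUnion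
  intro L
  exact (hInd d 0).1 _ _ (hfin x L).2 (hdep _ _ _)

theorem stPairs (hInd : StInd) (hLoc : StLoc) : StPairs := by
  classical
  intro d p n m s hs
  have hprob : IsProbabilityMeasure (perc d p) := (hInd d p).2.2.2
  have hmeas := pairs_meas hInd hLoc d
  have hmono := (hLoc d).2.2.1
  have hs0 : 0 < s := by
    refine lt_of_lt_of_le ?_ hs
    positivity
  set N : Cfg d → ℝ := fun ω => ∑ x ∈ Bx d n, ∑ y ∈ (Bx d n).filter (fun y => m < ds x y),
    (conn Set.univ x y : Set (Cfg d)).indicator (fun _ => (1 : ℝ)) ω with hN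
  have hterm : ∀ (ω : Cfg d) (x y : V d),
      0 ≤ (conn Set.univ x y : Set (Cfg d)).indicator (fun _ => (1 : ℝ)) ω := by
    intro ω x y
    exact Set.indicator_nonneg (fun _ _ => zero_le_one) _
  have hsub : {ω : Cfg d | ∃ x ∈ Bx d n, s ≤ freeCard d n ω x} ⊆ {ω | s ^ 2 / 2 ≤ N ω} := by
    rintro ω ⟨x0, hx0, hcard⟩
    set C : Finset (V d) := (Bx d n).filter fun y =>
      (openG (Bx d n : Set (V d)) ω).Reachable x0 y with hC
    have hCc : (freeCard d n ω x0 : ℝ) = (C.card : ℝ) := by
      rw [freeCard, hC]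
    rw [hCc] at hcard
    have hCB : C ⊆ Bx d n := Finset.filter_subset _ _
    have hone : ∀ x ∈ C, ∀ y ∈ C,
        (conn Set.univ x y : Set (Cfg d)).indicator (fun _ => (1 : ℝ)) ω = 1 := by
      intro x hx y hy
      rw [Set.indicator_of_mem]
      have hx' := (Finset.mem_filter.1 hx).2
      have hy' := (Finset.mem_filter.1 hy).2
      exact hmono _ _ _ _ (Set.subset_univ _) (hx'.symm.trans hy')
    have hinner : ∀ x ∈ C, (C.card : ℝ) / 2 ≤
        ∑ y ∈ (Bx d n).filter (fun y => m < ds x y),
          (conn Set.univ x y : Set (Cfg d)).indicator (fun _ => (1 : ℝ)) ω := by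
      intro x hx
      have h1 : ∑ y ∈ C.filter (fun y => m < ds x y),
          (conn Set.univ x y : Set (Cfg d)).indicator (fun _ => (1 : ℝ)) ω ≤
          ∑ y ∈ (Bx d n).filter (fun y => m < ds x y),
          (conn Set.univ x y : Set (Cfg d)).indicator (fun _ => (1 : ℝ)) ω :=
        Finset.sum_le_sum_of_subset_of_nonneg (Finset.filter_subset_filter _ hCB)
          fun y _ _ => hterm ω x y
      have h2 : ∑ y ∈ C.filter (fun y => m < ds x y),
          (conn Set.univ x y : Set (Cfg d)).indicator (fun _ => (1 : ℝ)) ω =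
          ((C.filter (fun y => m < ds x y)).card : ℝ) := by
        rw [Finset.sum_congr rfl fun y hy => hone x hx y (Finset.mem_filter.1 hy).1]
        simp
      have h3 := Finset.card_filter_add_card_filter_not (s := C) (fun y => m < ds x y)
      have h4 := pairs_count x m C
      have h5 : ((C.filter (fun y => m < ds x y)).card : ℝ) +
          ((C.filter (fun y => ¬ m < ds x y)).card : ℝ) = (C.card : ℝ) := by
        exact_mod_cast h3
      have h6 : ((C.filter (fun y => ¬ m < ds x y)).card : ℝ) ≤ (2 * (m : ℝ) + 1) ^ d := by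
        exact_mod_cast h4
      linarith
    have h7 : ∑ x ∈ C, ∑ y ∈ (Bx d n).filter (fun y => m < ds x y),
          (conn Set.univ x y : Set (Cfg d)).indicator (fun _ => (1 : ℝ)) ω ≤ N ω := by
      apply Finset.sum_le_sum_of_subset_of_nonneg hCB
      intro x _ _
      exact Finset.sum_nonneg fun y _ => hterm ω x y
    have h8 := Finset.sum_le_sum hinner
    rw [Finset.sum_const, nsmul_eq_mul] at h8
    have h9 : s ^ 2 / 2 ≤ (C.card : ℝ) * ((C.card : ℝ) / 2) := by
      nlinarith
    exact h9.trans (h8.trans h7)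
  have hint : ∀ x y : V d, Integrable
      ((conn Set.univ x y : Set (Cfg d)).indicator (fun _ => (1 : ℝ))) (perc d p) := by
    intro x y
    exact (integrable_const 1).indicator (hmeas x y)
  have hNint : Integrable N (perc d p) :=
    integrable_finsetSum _ fun x _ => integrable_finsetSum _ fun y _ => hint x y
  have hNval : ∫ ω, N ω ∂(perc d p) = ∑ x ∈ Bx d n,
      ∑ y ∈ (Bx d n).filter (fun y => m < ds x y), (perc d p).real (conn Set.univ x y) := by
    rw [hN, integral_finsetSum _ fun x _ => integrable_finsetSum _ fun y _ => hint x y]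
    refine Finset.sum_congr rfl fun x _ => ?_
    rw [integral_finsetSum _ fun y _ => hint x y]
    refine Finset.sum_congr rfl fun y _ => ?_
    rw [integral_indicator_const _ (hmeas x y)]
    simp
  have hN0 : 0 ≤ᵐ[perc d p] N :=
    Eventually.of_forall fun ω => Finset.sum_nonneg fun x _ =>
      Finset.sum_nonneg fun y _ => hterm ω x y
  have hmarkov := mul_meas_ge_le_integral_of_nonneg hN0 hNint (s ^ 2 / 2)
  rw [hNval] at hmarkov
  have hle : (perc d p).real {ω : Cfg d | ∃ x ∈ Bx d n, s ≤ freeCard d n ω x} ≤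
      (perc d p).real {ω | s ^ 2 / 2 ≤ N ω} := measureReal_mono hsub
  have hs2 : 0 < s ^ 2 := by positivity
  rw [div_mul_eq_mul_div, le_div_iff₀ hs2]
  have h10 : (perc d p).real {ω : Cfg d | ∃ x ∈ Bx d n, s ≤ freeCard d n ω x} * s ^ 2 ≤
      (perc d p).real {ω | s ^ 2 / 2 ≤ N ω} * s ^ 2 :=
    mul_le_mul_of_nonneg_right hle hs2.le
  linarith

end Pool.Agent.Helper56.WP
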