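import Pool.Agent.Helper56.WP.Statements

/-! # MP_65faa7_pr, module M_Sym -/

set_option autoImplicit false

open MeasureTheory Filter Topology

namespace Pool.Agent.Helper56.WP

/-- the sign factor -/
def sym_c {d : ℕ} (i : Fin d) (s : ℤ) (j : Fin d) : ℤ := if j = i then s else 1

theorem sym_c_sq {d : ℕ} (i : Fin d) {s : ℤ} (hs : s = 1 ∨ s = -1) (j : Fin d) :
    sym_c i s j * sym_c i s j = 1 := by
  unfold sym_c
  rcases hs with rfl | rfl <;> split_ifs <;> simp

theorem sym_c_abs {d : ℕ} (i : Fin d) {s : ℤ} (hs : s = 1 ∨ s = -1) (j : Fin d) :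
    |sym_c i s j| = 1 := by
  unfold sym_c
  rcases hs with rfl | rfl <;> split_ifs <;> simp

/-- the signed permutation followed by a translation -/
def sym_phi {d : ℕ} [NeZero d] (x : V d) (i : Fin d) (s : ℤ) (hs : s = 1 ∨ s = -1) :
    V d ≃ V d where
  toFun z := fun j => x j + sym_c i s j * z (Equiv.swap 0 i j)
  invFun w := fun j =>
    sym_c i s (Equiv.swap 0 i j) * (w (Equiv.swap 0 i j) - x (Equiv.swap 0 i j))
  left_inv z := by
    funext j
    have h := sym_c_sq i hs (Equiv.swap 0 i j)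
    simp only [add_sub_cancel_left, Equiv.swap_apply_self]
    rw [← mul_assoc, h, one_mul]
  right_inv w := by
    funext j
    have h := sym_c_sq i hs j
    simp only [Equiv.swap_apply_self]
    rw [← mul_assoc, h, one_mul]
    ring

theorem sym_phi_apply {d : ℕ} [NeZero d] (x : V d) (i : Fin d) (s : ℤ) (hs : s = 1 ∨ s = -1)
    (z : V d) (j : Fin d) :
    sym_phi x i s hs z j = x j + sym_c i s j * z (Equiv.swap 0 i j) := rfl

theorem sym_phi_zero {d : ℕ} [NeZero d] (x : V d) (i : Fin d) (s : ℤ) (hs : s = 1 ∨ s = -1) :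
    sym_phi x i s hs 0 = x := by
  funext j
  simp [sym_phi_apply]

theorem sym_phi_i {d : ℕ} [NeZero d] (x : V d) (i : Fin d) (s : ℤ) (hs : s = 1 ∨ s = -1)
    (z : V d) : sym_phi x i s hs z i - x i = s * z 0 := by
  simp [sym_phi_apply, sym_c]

theorem sym_nn {d : ℕ} [NeZero d] (x : V d) (i : Fin d) (s : ℤ) (hs : s = 1 ∨ s = -1)
    (z w : V d) : nn (sym_phi x i s hs z) (sym_phi x i s hs w) ↔ nn z w := by
  unfold nn
  have h : ∑ j, |sym_phi x i s hs z j - sym_phi x i s hs w j| = ∑ j, |z j - w j| := by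
    rw [← Equiv.sum_comp (Equiv.swap 0 i) fun j => |z j - w j|]
    refine Finset.sum_congr rfl fun j _ => ?_
    rw [sym_phi_apply, sym_phi_apply]
    have : x j + sym_c i s j * z (Equiv.swap 0 i j) - (x j + sym_c i s j * w (Equiv.swap 0 i j)) =
        sym_c i s j * (z (Equiv.swap 0 i j) - w (Equiv.swap 0 i j)) := by ring
    rw [this, abs_mul, sym_c_abs i hs, one_mul]
  rw [h]

theorem sym_bxL {d : ℕ} [NeZero d] (x : V d) (i : Fin d) (s : ℤ) (hs : s = 1 ∨ s = -1)
    (L : ℕ) : sym_phi x i s hs ⁻¹' (bxL x L) = bxL 0 L := by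
  ext z
  simp only [Set.mem_preimage, bxL, Set.mem_setOf_eq, sym_phi_apply, add_sub_cancel_left,
    abs_mul, sym_c_abs i hs, one_mul, Pi.zero_apply, sub_zero]
  constructor
  · intro h j
    have := h (Equiv.swap 0 i j)
    rwa [Equiv.swap_apply_self] at this
  · intro h j
    exact h _

/-- the induced permutation of unordered pairs -/
def sym_e {d : ℕ} (φ : V d ≃ V d) : Sym2 (V d) ≃ Sym2 (V d) where
  toFun := Sym2.map φ
  invFun := Sym2.map φ.symm
  left_inv e := by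
    rw [Sym2.map_map]
    simp
  right_inv e := by
    rw [Sym2.map_map]
    simp

/-- graph isomorphism -/
def sym_iso {d : ℕ} (φ : V d ≃ V d) (hφ : ∀ z w, nn (φ z) (φ w) ↔ nn z w) (B : Set (V d))
    (ω : Cfg d) : openG (φ ⁻¹' B) (ω ∘ sym_e φ) ≃g openG B ω where
  toEquiv := φ
  map_rel_iff' := by
    intro a b
    simp [openG, sym_e, hφ]

theorem sym_arm_iff {d : ℕ} [NeZero d] (x : V d) (i : Fin d) (s : ℤ) (hs : s = 1 ∨ s = -1)
    (B : Set (V d)) (r : ℕ) (ω : Cfg d) :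
    ω ∈ armAt B i s r x ↔
      ω ∘ sym_e (sym_phi x i s hs) ∈ armAt (sym_phi x i s hs ⁻¹' B) 0 1 r 0 := by
  have hs0 : s ≠ 0 := by rcases hs with rfl | rfl <;> decide
  have key : ∀ z : V d, (openG B ω).Reachable x (sym_phi x i s hs z) ↔
      (openG (sym_phi x i s hs ⁻¹' B) (ω ∘ sym_e (sym_phi x i s hs))).Reachable 0 z := by
    intro z
    have := SimpleGraph.Iso.reachable_iff
      (φ := sym_iso (sym_phi x i s hs) (sym_nn x i s hs) B ω) (u := 0) (v := z)
    rw [← this]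
    have h0 : (sym_iso (sym_phi x i s hs) (sym_nn x i s hs) B ω) 0 = x := sym_phi_zero x i s hs
    rw [h0]
    rfl
  simp only [armAt, Set.mem_setOf_eq]
  constructor
  · rintro ⟨y, hy, hr⟩
    obtain ⟨z, rfl⟩ := (sym_phi x i s hs).surjective y
    refine ⟨z, ?_, (key z).1 hr⟩
    rw [sym_phi_i] at hy
    have := mul_left_cancel₀ hs0 hy
    simp [this]
  · rintro ⟨z, hz, hr⟩
    refine ⟨sym_phi x i s hs z, ?_, (key z).2 hr⟩
    rw [sym_phi_i]
    have : z 0 = (r : ℤ) := by simpa using hz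
    rw [this]

theorem sym_dep {d : ℕ} (hLoc : StLoc) (B : Set (V d)) (i : Fin d) (s : ℤ) (r : ℕ) (x : V d) :
    dep (prs B) (armAt B i s r x) := by
  intro ω ω' h
  simp only [armAt, Set.mem_setOf_eq]
  refine exists_congr fun y => and_congr_right fun _ => ?_
  exact (hLoc d).2.1 B x y ω ω' h

theorem sym_meas {d : ℕ} (hInd : StInd) (hLoc : StLoc) (i : Fin d) (s : ℤ) (r L : ℕ) (x : V d) :
    MeasurableSet (armAt (bxL x L) i s r x) :=
  (hInd d 0).1 _ _ ((hLoc d).1 x L).2 (sym_dep hLoc _ i s r x)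

theorem sym_univ {d : ℕ} (hLoc : StLoc) (i : Fin d) (s : ℤ) (r : ℕ) (x : V d) :
    armAt Set.univ i s r x = ⋃ L : ℕ, armAt (bxL x L) i s r x := by
  ext ω
  simp only [Set.mem_iUnion]
  constructor
  · rintro ⟨y, hy, hr⟩
    obtain ⟨L, hL⟩ := (hLoc d).2.2.2.2 ω x y hr
    exact ⟨L, y, hy, hL L le_rfl⟩
  · rintro ⟨L, y, hy, hr⟩
    exact ⟨y, hy, (hLoc d).2.2.1 (bxL x L) Set.univ x y (Set.subset_univ _) hr⟩

theorem sym_meas_univ {d : ℕ} (hInd : StInd) (hLoc : StLoc) (i : Fin d) (s : ℤ) (r : ℕ)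
    (x : V d) : MeasurableSet (armAt Set.univ i s r x) := by
  rw [sym_univ hLoc]
  exact MeasurableSet.iUnion fun L => sym_meas hInd hLoc i s r L x

theorem stSym (hInd : StInd) (hLoc : StLoc) : StSym := by
  intro d _ p x i s r L hs
  have hmp := (hInd d p).2.2.1 (sym_e (sym_phi x i s hs))
  refine ⟨?_, ?_, sym_meas_univ hInd hLoc i s r x⟩
  · have h1 : armAt (bxL x L) i s r x =
        (fun ω : Cfg d => ω ∘ sym_e (sym_phi x i s hs)) ⁻¹' (armAt (bxL 0 L) 0 1 r 0) := by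
      ext ω
      rw [sym_arm_iff x i s hs, sym_bxL]
      rfl
    rw [h1]
    exact hmp.measure_preimage (sym_meas hInd hLoc 0 1 r L 0).nullMeasurableSet
  · have h1 : armAt Set.univ i s r x =
        (fun ω : Cfg d => ω ∘ sym_e (sym_phi x i s hs)) ⁻¹' (armAt Set.univ 0 1 r 0) := by
      ext ω
      rw [sym_arm_iff x i s hs]
      rfl
    have h2 : (armAt Set.univ 0 1 r 0 : Set (Cfg d)) = arm d r := by
      ext ω
      simp [armAt, arm]
    rw [h1, ← h2]
    exact hmp.measure_preimage (sym_meas_univ hInd hLoc 0 1 r 0).nullMeasurableSet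

end Pool.Agent.Helper56.WP
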