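import Pool.Agent.Helper56.WP.Statements

/-! # MP_65faa7_pr, module M_Tail -/

set_option autoImplicit false

open MeasureTheory Filter Topology

namespace Pool.Agent.Helper56.WP

/-- the points at distance exactly `k` from `x` -/
private theorem tail_count {d : ℕ} (hd : 2 ≤ d) (x : V d) (k : ℕ) (B : Finset (V d)) :
    ((B.filter fun y => ds x y = k).card : ℝ) ≤ 2 * d * (2 * k + 1) ^ (d - 1) := by
  classical
  have : NeZero d := ⟨by omega⟩
  let T : Fin d → ℤ → Finset (V d) := fun i s =>
    Fintype.piFinset fun j => if j = i then {x i + s} else Finset.Icc (x j - k) (x j + k)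
  have hT : ∀ i s, (T i s).card = (2 * k + 1) ^ (d - 1) := by
    intro i s
    rw [Fintype.card_piFinset, ← Finset.mul_prod_erase Finset.univ _ (Finset.mem_univ i)]
    rw [if_pos rfl, Finset.card_singleton, one_mul]
    have h1 : ∀ j ∈ Finset.univ.erase i,
        (if j = i then ({x i + s} : Finset ℤ) else Finset.Icc (x j - k) (x j + k)).card =
          2 * k + 1 := by
      intro j hj
      rw [if_neg (Finset.ne_of_mem_erase hj), Int.card_Icc]
      omega
    rw [Finset.prod_congr rfl h1, Finset.prod_const, Finset.card_erase_of_mem (Finset.mem_univ i),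
      Finset.card_univ, Fintype.card_fin]
  have hsub : (B.filter fun y => ds x y = k) ⊆
      (Finset.univ : Finset (Fin d)).biUnion fun i => T i k ∪ T i (-k) := by
    intro y hy
    rw [Finset.mem_filter] at hy
    have hk := hy.2
    obtain ⟨i, -, hi⟩ := Finset.exists_mem_eq_sup Finset.univ (Finset.univ_nonempty)
      (fun i : Fin d => (x i - y i).natAbs)
    have hi' : (x i - y i).natAbs = k := by
      rw [← hk]
      exact hi.symm
    have hle : ∀ j, (x j - y j).natAbs ≤ k := by
      intro j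
      rw [← hk]
      exact Finset.le_sup (f := fun i : Fin d => (x i - y i).natAbs) (Finset.mem_univ j)
    rw [Finset.mem_biUnion]
    refine ⟨i, Finset.mem_univ i, ?_⟩
    rw [Finset.mem_union]
    have h2 : y i = x i + k ∨ y i = x i + -k := by omega
    rcases h2 with h2 | h2
    · left
      rw [Fintype.mem_piFinset]
      intro j
      by_cases hj : j = i
      · rw [if_pos hj, Finset.mem_singleton, hj, h2]
      · rw [if_neg hj, Finset.mem_Icc]
        have := hle j
        omega
    · right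
      rw [Fintype.mem_piFinset]
      intro j
      by_cases hj : j = i
      · rw [if_pos hj, Finset.mem_singleton, hj, h2]
      · rw [if_neg hj, Finset.mem_Icc]
        have := hle j
        omega
  have h3 : (B.filter fun y => ds x y = k).card ≤ d * (2 * (2 * k + 1) ^ (d - 1)) := by
    refine (Finset.card_le_card hsub).trans (Finset.card_biUnion_le.trans ?_)
    have h4 : ∀ i ∈ (Finset.univ : Finset (Fin d)), (T i k ∪ T i (-k)).card ≤
        2 * (2 * k + 1) ^ (d - 1) := by
      intro i _
      refine (Finset.card_union_le _ _).trans ?_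
      rw [hT, hT]
      omega
    refine (Finset.sum_le_sum h4).trans ?_
    rw [Finset.sum_const, Finset.card_univ, Fintype.card_fin, smul_eq_mul]
  calc ((B.filter fun y => ds x y = k).card : ℝ) ≤
      ((d * (2 * (2 * k + 1) ^ (d - 1)) : ℕ) : ℝ) := by exact_mod_cast h3
    _ = 2 * d * (2 * k + 1) ^ (d - 1) := by
      push_cast
      ring

private theorem tail_ds_lt {d n : ℕ} (hd : 2 ≤ d) {x y : V d} (hx : x ∈ Bx d n)
    (hy : y ∈ Bx d n) : ds x y < n := by
  have : NeZero d := ⟨by omega⟩
  obtain ⟨i, -, hi⟩ := Finset.exists_mem_eq_sup Finset.univ (Finset.univ_nonempty)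
    (fun i : Fin d => (x i - y i).natAbs)
  have hx' := Fintype.mem_piFinset.1 hx i
  have hy' := Fintype.mem_piFinset.1 hy i
  rw [Finset.mem_Ico] at hx' hy'
  have : ds x y = (x i - y i).natAbs := hi
  rw [this]
  omega

private theorem tail_card {d n : ℕ} : (Bx d n).card = n ^ d := by
  unfold Bx
  rw [Fintype.card_piFinset]
  simp

private theorem tail_mul {f : ℕ → ℝ} (hf : Antitone f) (h0 : ∀ k, 0 ≤ f k) (hs : Summable f)
    (j : ℕ) : ((j : ℝ) + 1) * f j ≤ ∑' i, f i := by
  have h1 : ∑ i ∈ Finset.range (j + 1), f j ≤ ∑ i ∈ Finset.range (j + 1), f i := by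
    apply Finset.sum_le_sum
    intro i hi
    apply hf
    rw [Finset.mem_range] at hi
    omega
  rw [Finset.sum_const, Finset.card_range, nsmul_eq_mul] at h1
  push_cast at h1
  exact h1.trans (hs.sum_le_tsum _ fun i _ => h0 i)

private theorem tail_summable {f : ℕ → ℝ} (hs : Summable f) :
    Summable fun k : ℕ => f ((k - 1) / 2) := by
  rw [← summable_nat_add_iff 1]
  have h1 : HasSum (fun k : ℕ => f ((2 * k + 1 - 1) / 2)) (∑' k, f k) := by
    have : (fun k : ℕ => f ((2 * k + 1 - 1) / 2)) = f := by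
      funext k
      congr 1
      omega
    rw [this]
    exact hs.hasSum
  have h2 : HasSum (fun k : ℕ => f ((2 * k + 1 + 1 - 1) / 2)) (∑' k, f k) := by
    have : (fun k : ℕ => f ((2 * k + 1 + 1 - 1) / 2)) = f := by
      funext k
      congr 1
      omega
    rw [this]
    exact hs.hasSum
  exact (HasSum.even_add_odd (f := fun k : ℕ => f ((k + 1 - 1) / 2)) h1 h2).summable

theorem stTail : StTail := by
  intro d f hd hf h0 hs η hη
  set g : ℕ → ℝ := fun k => f ((k - 1) / 2) with hg
  have hgs : Summable g := tail_summable hs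
  have hg0 : ∀ k, 0 ≤ g k := fun k => h0 _
  set S : ℝ := ∑' i, f i with hS
  have hS0 : 0 ≤ S := tsum_nonneg h0
  set C : ℝ := 2 * d * 3 ^ (d - 1) * (2 * S) with hC
  have hC0 : 0 ≤ C := by positivity
  have hlim : Tendsto (fun m : ℕ => C * (∑' k, g k - ∑ k ∈ Finset.range (m + 1), g k)) atTop
      (𝓝 0) := by
    have h1 : Tendsto (fun m : ℕ => ∑ k ∈ Finset.range (m + 1), g k) atTop (𝓝 (∑' k, g k)) :=
      (hgs.hasSum.tendsto_sum_nat).comp (tendsto_add_atTop_nat 1)
    have h2 := (h1.const_sub (∑' k, g k)).const_mul C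
    simpa using h2
  obtain ⟨m, hm⟩ := (hlim.eventually (gt_mem_nhds hη)).exists
  refine ⟨m, fun n => ?_⟩
  have htail : ∑ k ∈ Finset.Ioc m n, g k ≤ ∑' k, g k - ∑ k ∈ Finset.range (m + 1), g k := by
    have hdis : Disjoint (Finset.Ioc m n) (Finset.range (m + 1)) := by
      rw [Finset.disjoint_left]
      intro k hk hk'
      rw [Finset.mem_Ioc] at hk
      rw [Finset.mem_range] at hk'
      omega
    have h1 := hgs.sum_le_tsum (Finset.Ioc m n ∪ Finset.range (m + 1)) fun i _ => hg0 i
    rw [Finset.sum_union hdis] at h1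
    linarith
  have hx : ∀ x ∈ Bx d n, ∑ y ∈ (Bx d n).filter (fun y => m < ds x y),
      f ((ds x y - 1) / 2) ^ 2 ≤ (n : ℝ) ^ (d - 2) * η := by
    intro x hx
    have hmaps : ∀ y ∈ (Bx d n).filter (fun y => m < ds x y), ds x y ∈ Finset.Ioc m n := by
      intro y hy
      rw [Finset.mem_filter] at hy
      rw [Finset.mem_Ioc]
      exact ⟨hy.2, (tail_ds_lt hd hx hy.1).le⟩
    rw [← Finset.sum_fiberwise_of_maps_to' hmaps (fun k => f ((k - 1) / 2) ^ 2)]
    have hk : ∀ k ∈ Finset.Ioc m n,
        ∑ y ∈ ((Bx d n).filter (fun y => m < ds x y)) with ds x y = k, f ((k - 1) / 2) ^ 2 ≤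
          C * (n : ℝ) ^ (d - 2) * g k := by
      intro k hk
      rw [Finset.mem_Ioc] at hk
      rw [Finset.sum_const, nsmul_eq_mul]
      have h1 := tail_count hd x k ((Bx d n).filter (fun y => m < ds x y))
      have hk1 : (1 : ℝ) ≤ k := by
        exact_mod_cast (by omega : 1 ≤ k)
      have hkn : (k : ℝ) ≤ n := by exact_mod_cast hk.2
      have h2 : (2 * (k : ℝ) + 1) ^ (d - 1) ≤ 3 ^ (d - 1) * (k * (n : ℝ) ^ (d - 2)) := by
        calc (2 * (k : ℝ) + 1) ^ (d - 1) ≤ (3 * (k : ℝ)) ^ (d - 1) := by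
              apply pow_le_pow_left₀ (by positivity)
              linarith
          _ = 3 ^ (d - 1) * ((k : ℝ) * (k : ℝ) ^ (d - 2)) := by
              rw [mul_pow]
              congr 1
              rw [← pow_succ']
              congr 1
              omega
          _ ≤ 3 ^ (d - 1) * ((k : ℝ) * (n : ℝ) ^ (d - 2)) := by
              gcongr
      have h3 : (k : ℝ) * f ((k - 1) / 2) ≤ 2 * S := by
        have h4 := tail_mul hf h0 hs ((k - 1) / 2)
        have h5 : (k : ℝ) ≤ 2 * ((((k - 1) / 2 : ℕ) : ℝ) + 1) := by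
          have : k ≤ 2 * ((k - 1) / 2 + 1) := by omega
          exact_mod_cast this
        calc (k : ℝ) * f ((k - 1) / 2) ≤ 2 * ((((k - 1) / 2 : ℕ) : ℝ) + 1) * f ((k - 1) / 2) :=
              mul_le_mul_of_nonneg_right h5 (h0 _)
          _ = 2 * (((((k - 1) / 2 : ℕ) : ℝ) + 1) * f ((k - 1) / 2)) := by ring
          _ ≤ 2 * S := by linarith
      calc ((((Bx d n).filter (fun y => m < ds x y)).filter fun y => ds x y = k).card : ℝ) *
            f ((k - 1) / 2) ^ 2
          ≤ (2 * d * (2 * k + 1) ^ (d - 1)) * f ((k - 1) / 2) ^ 2 := by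
            apply mul_le_mul_of_nonneg_right h1 (sq_nonneg _)
        _ ≤ (2 * d * (3 ^ (d - 1) * (k * (n : ℝ) ^ (d - 2)))) * f ((k - 1) / 2) ^ 2 := by
            gcongr
        _ = 2 * d * 3 ^ (d - 1) * (n : ℝ) ^ (d - 2) * f ((k - 1) / 2) *
            ((k : ℝ) * f ((k - 1) / 2)) := by ring
        _ ≤ 2 * d * 3 ^ (d - 1) * (n : ℝ) ^ (d - 2) * f ((k - 1) / 2) * (2 * S) := by
            apply mul_le_mul_of_nonneg_left h3
            have := h0 ((k - 1) / 2)
            positivity
        _ = C * (n : ℝ) ^ (d - 2) * g k := by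
            rw [hC, hg]
            ring
    refine (Finset.sum_le_sum hk).trans ?_
    rw [← Finset.mul_sum]
    calc C * (n : ℝ) ^ (d - 2) * ∑ k ∈ Finset.Ioc m n, g k
        ≤ C * (n : ℝ) ^ (d - 2) * (∑' k, g k - ∑ k ∈ Finset.range (m + 1), g k) := by
          apply mul_le_mul_of_nonneg_left htail
          positivity
      _ = (n : ℝ) ^ (d - 2) * (C * (∑' k, g k - ∑ k ∈ Finset.range (m + 1), g k)) := by ring
      _ ≤ (n : ℝ) ^ (d - 2) * η := by
          apply mul_le_mul_of_nonneg_left hm.le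
          positivity
  refine (Finset.sum_le_sum hx).trans ?_
  rw [Finset.sum_const, tail_card, nsmul_eq_mul]
  push_cast
  have h1 : (n : ℝ) ^ (2 * d - 2) = (n : ℝ) ^ d * (n : ℝ) ^ (d - 2) := by
    rw [← pow_add]
    congr 1
    omega
  rw [h1]
  apply le_of_eq
  ring

end Pool.Agent.Helper56.WP
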