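import Pool.Agent.Helper56.WP.Statements

/-! # MP_65faa7_pr, module M_TwoPt -/

set_option autoImplicit false

open MeasureTheory Filter Topology

namespace Pool.Agent.Helper56.WP

theorem m_twopt_nn {d : ℕ} {x y : V d} (h : nn x y) (i : Fin d) : |x i - y i| ≤ 1 := by
  unfold nn at h
  rw [← h]
  exact Finset.single_le_sum (f := fun i => |x i - y i|) (fun j _ => abs_nonneg _)
    (Finset.mem_univ i)

/-- the union of the arm events of the box of radius `k` around `x` -/
def m_twopt_U {d : ℕ} (k : ℕ) (x : V d) : Set (Cfg d) :=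
  ⋃ i : Fin d, (armAt (bxL x k) i 1 k x ∪ armAt (bxL x k) i (-1) k x)

theorem m_twopt_dep (hLoc : StLoc) {d : ℕ} (k : ℕ) (x : V d) :
    dep (prs (bxL x k)) (m_twopt_U k x) := by
  obtain ⟨-, hdep, -, -, -⟩ := hLoc d
  have h1 : ∀ ω ω' : Cfg d, (∀ e ∈ prs (bxL x k), ω e = ω' e) → ω ∈ m_twopt_U k x →
      ω' ∈ m_twopt_U k x := by
    intro ω ω' he h
    simp only [m_twopt_U, Set.mem_iUnion] at h ⊢
    obtain ⟨i, h | h⟩ := h
    · obtain ⟨y, hy, hr⟩ := h
      exact ⟨i, Or.inl ⟨y, hy, (hdep _ x y ω ω' he).1 hr⟩⟩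
    · obtain ⟨y, hy, hr⟩ := h
      exact ⟨i, Or.inr ⟨y, hy, (hdep _ x y ω ω' he).1 hr⟩⟩
  intro ω ω' he
  exact ⟨h1 ω ω' he, h1 ω' ω fun e h => (he e h).symm⟩

theorem m_twopt_meas (hLoc : StLoc) (hSym : StSym) {d : ℕ} [NeZero d]
    (p : unitInterval) (k : ℕ) (x : V d) :
    perc d p (m_twopt_U k x) ≤ 2 * d * perc d p (arm d k) := by
  obtain ⟨-, -, hmono, -, -⟩ := hLoc d
  have h1 : ∀ (i : Fin d) (s : ℤ), s = 1 ∨ s = -1 →
      perc d p (armAt (bxL x k) i s k x) ≤ perc d p (arm d k) := by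
    intro i s hs
    rw [← (hSym d p x i s k k hs).2.1]
    refine measure_mono ?_
    rintro ω ⟨y, hy, hr⟩
    exact ⟨y, hy, hmono _ _ x y (Set.subset_univ _) hr⟩
  calc perc d p (m_twopt_U k x)
      ≤ ∑ i : Fin d, perc d p (armAt (bxL x k) i 1 k x ∪ armAt (bxL x k) i (-1) k x) :=
        measure_iUnion_fintype_le _ _
    _ ≤ ∑ _i : Fin d, (perc d p (arm d k) + perc d p (arm d k)) := by
        refine Finset.sum_le_sum fun i _ => ?_
        exact (measure_union_le _ _).trans
          (add_le_add (h1 i 1 (Or.inl rfl)) (h1 i (-1) (Or.inr rfl)))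
    _ = 2 * d * perc d p (arm d k) := by
        rw [Finset.sum_const, Finset.card_univ, Fintype.card_fin, nsmul_eq_mul]
        ring

theorem m_twopt_sub (hLoc : StLoc) {d : ℕ} {k : ℕ} {x y : V d} (hxy : 2 * k + 1 ≤ ds x y) :
    conn Set.univ x y ⊆ m_twopt_U k x := by
  obtain ⟨-, -, -, hexit, -⟩ := hLoc d
  intro ω hω
  have hx : x ∈ bxL x k := by
    intro i
    simp
  rcases hexit Set.univ (bxL x k) ω x y hx hω with ⟨h1, -⟩ | ⟨z, z', hz, hz', hnn, hzr⟩
  · exfalso
    have h2 : ds x y ≤ k := by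
      refine Finset.sup_le fun i _ => ?_
      have := h1 i
      rw [abs_le] at this
      omega
    omega
  · have h2 : ∃ i, ¬ |z' i - x i| ≤ k := by
      by_contra hne
      push Not at hne
      exact hz' hne
    obtain ⟨i, hi⟩ := h2
    have h3 := hz i
    have h4 := m_twopt_nn hnn i
    rw [Set.univ_inter] at hzr
    simp only [m_twopt_U, Set.mem_iUnion]
    refine ⟨i, ?_⟩
    have h5 : z i - x i = k ∨ z i - x i = -k := by
      rw [abs_le] at h3 h4
      rw [not_le, lt_abs] at hi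
      omega
    rcases h5 with h5 | h5
    · exact Or.inl ⟨z, by rw [h5]; ring, hzr⟩
    · exact Or.inr ⟨z, by rw [h5]; ring, hzr⟩

theorem stTwoPt (hInd : StInd) (hLoc : StLoc) (hSym : StSym) : StTwoPt := by
  intro d _ p x y k hxy
  have hyx : 2 * k + 1 ≤ ds y x := by
    refine hxy.trans ?_
    refine Finset.sup_le fun i _ => ?_
    refine le_trans ?_ (Finset.le_sup (f := fun i => (y i - x i).natAbs) (Finset.mem_univ i))
    show (x i - y i).natAbs ≤ (y i - x i).natAbs
    omega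
  have hsub : conn Set.univ x y ⊆ m_twopt_U k x ∩ m_twopt_U k y := by
    intro ω hω
    exact ⟨m_twopt_sub hLoc hxy hω, m_twopt_sub hLoc hyx (SimpleGraph.Reachable.symm hω)⟩
  obtain ⟨hfin, -, -, -, -⟩ := hLoc d
  obtain ⟨-, hindep, -, -⟩ := hInd d p
  have hdis : Disjoint (prs (bxL x k)) (prs (bxL y k)) := by
    rw [Set.disjoint_left]
    intro e h1 h2
    induction e with
    | h a b =>
      have ha1 : a ∈ bxL x k := h1 a (by simp)
      have ha2 : a ∈ bxL y k := h2 a (by simp)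
      have h3 : ds x y ≤ 2 * k := by
        refine Finset.sup_le fun i _ => ?_
        have := ha1 i
        have h' := ha2 i
        rw [abs_le] at this h'
        omega
      omega
  calc perc d p (conn Set.univ x y) ≤ perc d p (m_twopt_U k x ∩ m_twopt_U k y) :=
        measure_mono hsub
    _ = perc d p (m_twopt_U k x) * perc d p (m_twopt_U k y) :=
        hindep _ _ _ _ (hfin x k).2 (hfin y k).2 hdis (m_twopt_dep hLoc k x)
          (m_twopt_dep hLoc k y)
    _ ≤ (2 * d * perc d p (arm d k)) * (2 * d * perc d p (arm d k)) :=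
        mul_le_mul' (m_twopt_meas hLoc hSym p k x) (m_twopt_meas hLoc hSym p k y)
    _ = (2 * d * perc d p (arm d k)) ^ 2 := by ring

end Pool.Agent.Helper56.WP
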