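import Pool.Agent.Helper56.WP.Statements

/-! # MP_65faa7_pr, module M_Upp -/

set_option autoImplicit false

open MeasureTheory Filter Topology

namespace Pool.Agent.Helper56.WP

theorem m_upp_measW (hInd : StInd) (hLoc : StLoc) (d n : ℕ) (p : unitInterval) :
    Measurable (W d n) := by
  obtain ⟨hfin, hdep, -, -, -⟩ := hLoc d
  obtain ⟨hmeas, -, -, -⟩ := hInd d p
  have hS : (prs ((Bx d n : Finset (V d)) : Set (V d))).Finite := by
    refine (hfin 0 n).2.subset ?_
    intro e he v hv i
    have h1 := he v hv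
    simp only [Bx, Finset.mem_coe, Fintype.mem_piFinset, Finset.mem_Ico] at h1
    have h2 := h1 i
    simp only [Pi.zero_apply, sub_zero]
    rw [abs_le]
    omega
  refine measurable_to_countable' fun k => ?_
  refine hmeas _ _ hS ?_
  intro ω ω' he
  have h1 : W d n ω = W d n ω' := by
    classical
    unfold W
    congr 1
    refine Finset.filter_congr fun x _ => ?_
    refine exists_congr fun z => and_congr_right fun _ => ?_
    exact hdep _ x z ω ω' he
  simp only [Set.mem_preimage, Set.mem_singleton_iff, h1]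

theorem m_upp_W_le (d n : ℕ) (ω : Cfg d) : W d n ω ≤ (Bx d n).card := by
  classical
  unfold W
  exact Finset.card_filter_le _ _

theorem m_upp_awpos (hInd : StInd) (d : ℕ) [NeZero d] (p : unitInterval) : 0 < aw d p := by
  obtain ⟨-, -, -, hP⟩ := hInd d p
  have h0 : perc d p (arm d 0) = 1 := by
    have : arm d 0 = Set.univ := by
      refine Set.eq_univ_of_forall fun ω => ⟨0, by simp, SimpleGraph.Reachable.refl _⟩
    rw [this, measure_univ]
  have h1 : (1 : ENNReal) ≤ ∑' r : ℕ, perc d p (arm d r) := by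
    rw [← h0]
    exact ENNReal.le_tsum 0
  unfold aw
  have hd : (d : ENNReal) ≠ 0 := by exact_mod_cast NeZero.ne d
  refine ENNReal.mul_pos (mul_ne_zero two_ne_zero hd) ?_
  exact (zero_lt_one.trans_le h1).ne'

/-- the inequality at a fixed `n` -/
theorem m_upp_key (hInd : StInd) (hLoc : StLoc) (hMean : StMean) (d : ℕ) [NeZero d]
    (p : unitInterval) (n : ℕ) (hn : 1 ≤ n) (a b u : ℝ) (hb : 0 ≤ b) (hba : b ≤ a)
    (hau : a < u) (ha : aw d p = ENNReal.ofReal a) :
    (perc d p).real {ω | u * (n : ℝ) ^ (d - 1) ≤ (W d n ω : ℝ)} * (u - b) ≤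
      (a - b) + b * (perc d p).real {ω | (W d n ω : ℝ) ≤ b * (n : ℝ) ^ (d - 1)} := by
  obtain ⟨-, -, -, hP⟩ := hInd d p
  have hW := m_upp_measW hInd hLoc d n p
  have hWr : Measurable fun ω : Cfg d => (W d n ω : ℝ) := measurable_from_nat.comp hW
  set N : ℝ := (n : ℝ) ^ (d - 1) with hN
  have hNpos : 0 < N := by positivity
  set Up : Set (Cfg d) := {ω | u * N ≤ (W d n ω : ℝ)} with hUp
  set Lo : Set (Cfg d) := {ω | (W d n ω : ℝ) ≤ b * N} with hLo
  have mUp : MeasurableSet Up := measurableSet_le measurable_const hWr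
  have mLo : MeasurableSet Lo := measurableSet_le hWr measurable_const
  have hint : Integrable (fun ω : Cfg d => (W d n ω : ℝ)) (perc d p) := by
    refine Integrable.of_bound hWr.aestronglyMeasurable ((Bx d n).card : ℝ) ?_
    refine Eventually.of_forall fun ω => ?_
    rw [Real.norm_of_nonneg (Nat.cast_nonneg _)]
    exact_mod_cast m_upp_W_le d n ω
  have hmean : ∫ ω, (W d n ω : ℝ) ∂(perc d p) ≤ a * N := by
    have h1 := hMean d p n hn
    have h2 := ofReal_integral_eq_lintegral_ofReal hint
      (Eventually.of_forall fun ω => Nat.cast_nonneg _)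
    simp only [ENNReal.ofReal_natCast] at h2
    rw [← h2, ha] at h1
    have h3 : (n : ENNReal) ^ (d - 1) * ENNReal.ofReal a = ENNReal.ofReal (a * N) := by
      rw [mul_comm a N, ENNReal.ofReal_mul hNpos.le, hN, ENNReal.ofReal_pow (Nat.cast_nonneg _),
        ENNReal.ofReal_natCast]
    rw [h3] at h1
    exact (ENNReal.ofReal_le_ofReal_iff (by nlinarith)).1 h1
  have i1 : Integrable (Lo.indicator fun _ => b * N) (perc d p) :=
    (integrable_const _).indicator mLo
  have i2 : Integrable (Up.indicator fun _ => b * N) (perc d p) :=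
    (integrable_const _).indicator mUp
  have i3 : Integrable (Up.indicator fun _ => u * N) (perc d p) :=
    (integrable_const _).indicator mUp
  have hmono : ∫ ω, ((Up.indicator (fun _ => u * N) ω) + b * N) ∂(perc d p) ≤
      ∫ ω, ((W d n ω : ℝ) + (Lo.indicator (fun _ => b * N) ω) +
        (Up.indicator (fun _ => b * N) ω)) ∂(perc d p) := by
    refine integral_mono (i3.add (integrable_const _)) ((hint.add i1).add i2) ?_
    intro ω
    have hbN : 0 ≤ b * N := by positivity
    have hw0 : (0 : ℝ) ≤ W d n ω := Nat.cast_nonneg _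
    show Up.indicator (fun _ => u * N) ω + b * N ≤
      (W d n ω : ℝ) + (Lo.indicator (fun _ => b * N) ω) + (Up.indicator (fun _ => b * N) ω)
    by_cases h1 : ω ∈ Up
    · rw [Set.indicator_of_mem h1, Set.indicator_of_mem h1]
      have h2 : u * N ≤ (W d n ω : ℝ) := h1
      have h3 : 0 ≤ Lo.indicator (fun _ => b * N) ω := Set.indicator_nonneg (fun _ _ => hbN) _
      linarith
    · rw [Set.indicator_of_notMem h1, Set.indicator_of_notMem h1]
      by_cases h2 : ω ∈ Lo
      · rw [Set.indicator_of_mem h2]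
        linarith
      · rw [Set.indicator_of_notMem h2]
        have h3 : ¬ (W d n ω : ℝ) ≤ b * N := h2
        push Not at h3
        linarith
  rw [integral_add i3 (integrable_const _),
    integral_add (f := fun ω => (W d n ω : ℝ) + Lo.indicator (fun _ => b * N) ω)
      (hint.add i1) i2,
    integral_add hint i1, integral_indicator_const _ mUp, integral_indicator_const _ mUp,
    integral_indicator_const _ mLo, integral_const] at hmono
  simp only [probReal_univ, smul_eq_mul, one_mul] at hmono
  have hq : (perc d p).real Up * (u - b) * N ≤ ((a - b) + b * (perc d p).real Lo) * N := by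
    nlinarith
  exact le_of_mul_le_mul_right hq hNpos

theorem stUpp (hInd : StInd) (hLoc : StLoc) (hMean : StMean) (hLow : StLow) : StUpp := by
  intro d _ p u hd hu
  obtain ⟨-, -, -, hP⟩ := hInd d p
  have hpos := m_upp_awpos hInd d p
  have hfin : aw d p ≠ ⊤ := (hu.trans ENNReal.ofReal_lt_top).ne
  set a : ℝ := (aw d p).toReal with ha
  have ha' : aw d p = ENNReal.ofReal a := (ENNReal.ofReal_toReal hfin).symm
  have hapos : 0 < a := ENNReal.toReal_pos hpos.ne' hfin
  have hau : a < u := by
    rw [ha'] at hu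
    exact (ENNReal.ofReal_lt_ofReal_iff_of_nonneg hapos.le).1 hu
  rw [ENNReal.tendsto_atTop_zero]
  intro ε hε
  rcases eq_or_ne ε ⊤ with rfl | hεt
  · exact ⟨0, fun n _ => le_top⟩
  set e : ℝ := ε.toReal with he
  have hepos : 0 < e := ENNReal.toReal_pos hε.ne' hεt
  have hua : 0 < u - a := sub_pos.2 hau
  set δ : ℝ := e * (u - a) / 2 with hδ
  have hδpos : 0 < δ := by positivity
  set b : ℝ := max (a - δ) 0 with hb
  have hb0 : 0 ≤ b := le_max_right _ _
  have hba : b < a := max_lt (by linarith) hapos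
  have hab : a - b ≤ δ := by
    have := le_max_left (a - δ) 0
    linarith
  have hlow := hLow d p b hd (by
    rw [ha']
    exact (ENNReal.ofReal_lt_ofReal_iff hapos).2 hba)
  rw [ENNReal.tendsto_atTop_zero] at hlow
  obtain ⟨n0, hn0⟩ := hlow (ENNReal.ofReal (δ / a)) (ENNReal.ofReal_pos.2 (by positivity))
  refine ⟨max n0 1, fun n hn => ?_⟩
  have hn1 : 1 ≤ n := (le_max_right _ _).trans hn
  have hk := m_upp_key hInd hLoc hMean d p n hn1 a b u hb0 hba.le hau ha'
  have hL : (perc d p).real {ω | (W d n ω : ℝ) ≤ b * (n : ℝ) ^ (d - 1)} ≤ δ / a := by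
    have := hn0 n ((le_max_left _ _).trans hn)
    rw [measureReal_def]
    exact ENNReal.toReal_le_of_le_ofReal (by positivity) this
  set q : ℝ := (perc d p).real {ω | u * (n : ℝ) ^ (d - 1) ≤ (W d n ω : ℝ)} with hq
  have hq0 : 0 ≤ q := measureReal_nonneg
  have hbL : b * (perc d p).real {ω | (W d n ω : ℝ) ≤ b * (n : ℝ) ^ (d - 1)} ≤ δ := by
    calc b * (perc d p).real {ω | (W d n ω : ℝ) ≤ b * (n : ℝ) ^ (d - 1)}
        ≤ a * (δ / a) := mul_le_mul hba.le hL measureReal_nonneg hapos.le
      _ = δ := by field_simp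
  have h1 : q * (u - a) ≤ e * (u - a) := by
    have : q * (u - a) ≤ q * (u - b) := mul_le_mul_of_nonneg_left (by linarith) hq0
    have : e * (u - a) = δ + δ := by rw [hδ]; ring
    linarith
  have h2 : q ≤ e := le_of_mul_le_mul_right h1 hua
  rw [← ENNReal.ofReal_toReal hεt, ← ofReal_measureReal (measure_ne_top _ _)]
  exact ENNReal.ofReal_le_ofReal h2

end Pool.Agent.Helper56.WP
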