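import Pool.Agent.Helper56.WP.Defs

/-!
# MP_65faa7_pr : statements of the modules
A module proves `theorem x (h1 : StA) ... : StX`.
-/

set_option autoImplicit false

open MeasureTheory Filter Topology

namespace Pool.Agent.Helper56.WP

/-- box of radius `L` around `x` -/
def bxL {d : ℕ} (x : V d) (L : ℕ) : Set (V d) := {y | ∀ i, |y i - x i| ≤ L}

/-- pairs of points of `B` -/
def prs {d : ℕ} (B : Set (V d)) : Set (Sym2 (V d)) := {e | ∀ v ∈ e, v ∈ B}

/-- the event `A` depends only on the states of the pairs in `S` -/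
def dep {d : ℕ} (S : Set (Sym2 (V d))) (A : Set (Cfg d)) : Prop :=
  ∀ ω ω' : Cfg d, (∀ e ∈ S, ω e = ω' e) → (ω ∈ A ↔ ω' ∈ A)

/-- `x` and `y` are connected by open edges inside `B` -/
def conn {d : ℕ} (B : Set (V d)) (x y : V d) : Set (Cfg d) := {ω | (openG B ω).Reachable x y}

/-- `x` is connected inside `B` to the hyperplane `y i - x i = s * r` -/
def armAt {d : ℕ} (B : Set (V d)) (i : Fin d) (s : ℤ) (r : ℕ) (x : V d) : Set (Cfg d) :=
  {ω | ∃ y : V d, y i - x i = s * r ∧ (openG B ω).Reachable x y}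

open Classical in
/-- number of points of the box connected to its boundary inside the box -/
noncomputable def W (d n : ℕ) (ω : Cfg d) : ℕ :=
  ((Bx d n).filter fun x => ∃ z ∈ bd d n, (openG (Bx d n : Set (V d)) ω).Reachable x z).card

open Classical in
/-- size of the free cluster of `x` in the box -/
noncomputable def freeCard (d n : ℕ) (ω : Cfg d) (x : V d) : ℕ :=
  ((Bx d n).filter fun y => (openG (Bx d n : Set (V d)) ω).Reachable x y).card

/-- sup-norm distance -/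
def ds {d : ℕ} (x y : V d) : ℕ := Finset.univ.sup fun i => (x i - y i).natAbs

/-- M1: measurability, independence, invariance -/
def StInd : Prop :=
  ∀ (d : ℕ) (p : unitInterval),
    (∀ (S : Set (Sym2 (V d))) (A : Set (Cfg d)), S.Finite → dep S A → MeasurableSet A) ∧
    (∀ (S T : Set (Sym2 (V d))) (A B : Set (Cfg d)), S.Finite → T.Finite → Disjoint S T →
      dep S A → dep T B → perc d p (A ∩ B) = perc d p A * perc d p B) ∧
    (∀ e : Sym2 (V d) ≃ Sym2 (V d),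
      MeasurePreserving (fun ω : Cfg d => ω ∘ e) (perc d p) (perc d p)) ∧
    IsProbabilityMeasure (perc d p)

/-- M2: locality, first exit, exhaustion -/
def StLoc : Prop :=
  ∀ d : ℕ,
    (∀ (x : V d) (L : ℕ), (bxL x L).Finite ∧ (prs (bxL x L)).Finite) ∧
    (∀ (B : Set (V d)) (x y : V d), dep (prs B) (conn B x y)) ∧
    (∀ (B B' : Set (V d)) (x y : V d), B ⊆ B' → conn B x y ⊆ conn B' x y) ∧
    (∀ (U B : Set (V d)) (ω : Cfg d) (x y : V d), x ∈ B → (openG U ω).Reachable x y →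
      (y ∈ B ∧ (openG (U ∩ B) ω).Reachable x y) ∨
        ∃ z z', z ∈ B ∧ z' ∉ B ∧ nn z z' ∧ (openG (U ∩ B) ω).Reachable x z) ∧
    (∀ (ω : Cfg d) (x y : V d), (openG Set.univ ω).Reachable x y →
      ∃ L : ℕ, ∀ L', L ≤ L' → (openG (bxL x L') ω).Reachable x y)

/-- M3: symmetry -/
def StSym : Prop :=
  ∀ (d : ℕ) [NeZero d] (p : unitInterval) (x : V d) (i : Fin d) (s : ℤ) (r L : ℕ),
    s = 1 ∨ s = -1 →
    perc d p (armAt (bxL x L) i s r x) = perc d p (armAt (bxL 0 L) 0 1 r 0) ∧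
    perc d p (armAt Set.univ i s r x) = perc d p (arm d r) ∧
    MeasurableSet (armAt Set.univ i s r x)

/-- M4: exhaustion and monotonicity of the arm probability -/
def StLim : Prop :=
  ∀ (d : ℕ) [NeZero d] (p : unitInterval) (r : ℕ),
    Tendsto (fun L : ℕ => perc d p (armAt (bxL 0 L) 0 1 r 0)) atTop (𝓝 (perc d p (arm d r))) ∧
    perc d p (arm d (r + 1)) ≤ perc d p (arm d r) ∧ perc d p (arm d 0) = 1

open Classical in
/-- M5: weak law of large numbers for local events -/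
def StCheb : Prop :=
  ∀ (d : ℕ) (p : unitInterval) (L : ℕ) (X : Finset (V d)) (A : V d → Set (Cfg d)) (q δ : ℝ),
    (∀ x ∈ X, dep (prs (bxL x L)) (A x)) → (∀ x ∈ X, (perc d p).real (A x) = q) → 0 < δ →
    X.Nonempty →
    (perc d p).real {ω | ((X.filter fun x => ω ∈ A x).card : ℝ) ≤ (q - δ) * X.card} ≤
      (4 * L + 1) ^ d / (δ ^ 2 * X.card)

/-- M6: geometry of the wired clusters -/
def StGeo : Prop :=
  ∀ (d n : ℕ) (ω : Cfg d), 1 ≤ d → 1 ≤ n →
    (∀ x ∈ Bx d n, (∃ z ∈ bd d n, (openG (Bx d n : Set (V d)) ω).Reachable x z) ↔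
      ∃ i : Fin d, ω ∈ armAt Set.univ i (-1) (x i).toNat x ∨
        ω ∈ armAt Set.univ i 1 ((n : ℤ) - 1 - x i).toNat x) ∧
    W d n ω ≤ wiredMax n ω ∧
    ((wiredMax n ω : ℕ) ≤ W d n ω ∨ ∃ x ∈ Bx d n, wiredMax n ω ≤ freeCard d n ω x)

/-- M7: first moment -/
def StMean : Prop :=
  ∀ (d : ℕ) [NeZero d] (p : unitInterval) (n : ℕ), 1 ≤ n →
    ∫⁻ ω, (W d n ω : ENNReal) ∂(perc d p) ≤ (n : ENNReal) ^ (d - 1) * aw d p

/-- M8: two-point bound -/
def StTwoPt : Prop :=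
  ∀ (d : ℕ) [NeZero d] (p : unitInterval) (x y : V d) (k : ℕ), 2 * k + 1 ≤ ds x y →
    perc d p (conn Set.univ x y) ≤ (2 * d * perc d p (arm d k)) ^ 2

open Classical in
/-- M9: a big cluster has many far pairs -/
def StPairs : Prop :=
  ∀ (d : ℕ) (p : unitInterval) (n m : ℕ) (s : ℝ), 2 * ((2 : ℝ) * m + 1) ^ d ≤ s →
    (perc d p).real {ω | ∃ x ∈ Bx d n, s ≤ freeCard d n ω x} ≤
      2 / s ^ 2 * ∑ x ∈ Bx d n, ∑ y ∈ (Bx d n).filter (fun y => m < ds x y),
        (perc d p).real (conn Set.univ x y)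

open Classical in
/-- M10: summation -/
def StTail : Prop :=
  ∀ (d : ℕ) (f : ℕ → ℝ), 2 ≤ d → Antitone f → (∀ k, 0 ≤ f k) → Summable f →
    ∀ η : ℝ, 0 < η → ∃ m : ℕ, ∀ n : ℕ,
      ∑ x ∈ Bx d n, ∑ y ∈ (Bx d n).filter (fun y => m < ds x y), f ((ds x y - 1) / 2) ^ 2 ≤
        η * (n : ℝ) ^ (2 * d - 2)

/-- M11: lower bound -/
def StLow : Prop :=
  ∀ (d : ℕ) [NeZero d] (p : unitInterval) (u : ℝ), 2 ≤ d → ENNReal.ofReal u < aw d p →
    Tendsto (fun n : ℕ => perc d p {ω | (W d n ω : ℝ) ≤ u * (n : ℝ) ^ (d - 1)}) atTop (𝓝 0)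

/-- M12: upper bound -/
def StUpp : Prop :=
  ∀ (d : ℕ) [NeZero d] (p : unitInterval) (u : ℝ), 2 ≤ d → aw d p < ENNReal.ofReal u →
    Tendsto (fun n : ℕ => perc d p {ω | u * (n : ℝ) ^ (d - 1) ≤ (W d n ω : ℝ)}) atTop (𝓝 0)

/-- final statement -/
def StFinal : Prop :=
  ∀ (d : ℕ) [NeZero d] (p : unitInterval), 2 ≤ d →
    2 * (d : ENNReal) ≤ aw d p ∧
    (∀ u : ℝ, ENNReal.ofReal u < aw d p →
      Tendsto (fun n : ℕ => perc d p {ω | (wiredMax n ω : ℝ) ≤ u * (n : ℝ) ^ (d - 1)}) atTop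
        (𝓝 0)) ∧
    (∀ u : ℝ, aw d p < ENNReal.ofReal u →
      Tendsto (fun n : ℕ => perc d p {ω | u * (n : ℝ) ^ (d - 1) ≤ (wiredMax n ω : ℝ)}) atTop
        (𝓝 0))

end Pool.Agent.Helper56.WP
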